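import Mathlib

/-!
# The distance in projective space over a normed field
-/

set_option autoImplicit false

open Topology Filter

namespace Pool.Agent.L0h15.MA

variable {L : Type} [NormedField L] {ι : Type} [Fintype ι]

/-- the minors of two vectors -/
def wd (u v : ι → L) : ι × ι → L := fun q => u q.1 * v q.2 - u q.2 * v q.1

/-- the distance of two points of projective space -/
noncomputable def dd (u v : ι → L) : ℝ := ‖wd u v‖ / (‖u‖ * ‖v‖)

theorem dd_nonneg (u v : ι → L) : 0 ≤ dd u v := by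
  unfold dd
  positivity

omit [Fintype ι] in
theorem wd_comm (u v : ι → L) : wd u v = - wd v u := by
  funext q
  simp only [wd, Pi.neg_apply]
  ring

theorem dd_comm (u v : ι → L) : dd u v = dd v u := by
  unfold dd
  rw [wd_comm, norm_neg, mul_comm]

omit [Fintype ι] in
theorem wd_smul_left (a : L) (u v : ι → L) : wd (a • u) v = a • wd u v := by
  funext q
  simp only [wd, Pi.smul_apply, smul_eq_mul]
  ring

theorem dd_smul_left {a : L} (ha : a ≠ 0) (u v : ι → L) : dd (a • u) v = dd u v := by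
  unfold dd
  rw [wd_smul_left, norm_smul, norm_smul, mul_assoc, mul_div_mul_left _ _ (norm_ne_zero_iff.2 ha)]

theorem dd_smul_right {a : L} (ha : a ≠ 0) (u v : ι → L) : dd u (a • v) = dd u v := by
  rw [dd_comm, dd_smul_left ha, dd_comm]

theorem norm_wd_le (u v : ι → L) : ‖wd u v‖ ≤ 2 * (‖u‖ * ‖v‖) := by
  rw [pi_norm_le_iff_of_nonneg (by positivity)]
  intro q
  have h1 : ‖u q.1 * v q.2 - u q.2 * v q.1‖ ≤ ‖u q.1 * v q.2‖ + ‖u q.2 * v q.1‖ := norm_sub_le _ _
  rw [norm_mul, norm_mul] at h1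
  have h2 := mul_le_mul (norm_le_pi_norm u q.1) (norm_le_pi_norm v q.2) (norm_nonneg _)
    (norm_nonneg _)
  have h3 := mul_le_mul (norm_le_pi_norm u q.2) (norm_le_pi_norm v q.1) (norm_nonneg _)
    (norm_nonneg _)
  change ‖u q.1 * v q.2 - u q.2 * v q.1‖ ≤ _
  linarith

/-- the norm is attained -/
theorem exists_norm_eq {u : ι → L} (hu : u ≠ 0) : ∃ a, ‖u a‖ = ‖u‖ := by
  have : Nonempty ι := by
    by_contra h
    rw [not_nonempty_iff] at h
    exact hu (Subsingleton.elim _ _)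
  obtain ⟨a, -, ha⟩ := Finset.exists_mem_eq_sup' Finset.univ_nonempty fun i => ‖u i‖₊
  refine ⟨a, ?_⟩
  have h1 : ‖u‖₊ = ‖u a‖₊ := by
    rw [Pi.nnnorm_def, ← Finset.sup'_eq_sup Finset.univ_nonempty, ha]
  exact (congrArg NNReal.toReal h1).symm

/-- the quasi-triangle inequality -/
theorem dd_triangle {u v w : ι → L} (hu : u ≠ 0) (hv : v ≠ 0) (hw : w ≠ 0) :
    dd u w ≤ 2 * dd u v + dd v w := by
  obtain ⟨k, hk⟩ := exists_norm_eq hv
  have hu' : 0 < ‖u‖ := norm_pos_iff.2 hu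
  have hv' : 0 < ‖v‖ := norm_pos_iff.2 hv
  have hw' : 0 < ‖w‖ := norm_pos_iff.2 hw
  have h1 : ‖v‖ * ‖wd u w‖ ≤ 2 * (‖w‖ * ‖wd u v‖) + ‖u‖ * ‖wd v w‖ := by
    rw [← hk, ← norm_smul, pi_norm_le_iff_of_nonneg (by positivity)]
    intro q
    have h2 : (v k • wd u w) q = w q.2 * wd u v (q.1, k) + u k * wd v w q + w q.1 * wd u v (k, q.2) := by
      simp only [wd, Pi.smul_apply, smul_eq_mul]
      ring
    rw [h2]
    refine (norm_add₃_le).trans ?_
    rw [norm_mul, norm_mul, norm_mul]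
    have h3 := mul_le_mul (norm_le_pi_norm w q.2) (norm_le_pi_norm (wd u v) (q.1, k))
      (norm_nonneg _) (norm_nonneg _)
    have h4 := mul_le_mul (norm_le_pi_norm w q.1) (norm_le_pi_norm (wd u v) (k, q.2))
      (norm_nonneg _) (norm_nonneg _)
    have h5 := mul_le_mul (norm_le_pi_norm u k) (norm_le_pi_norm (wd v w) q)
      (norm_nonneg _) (norm_nonneg _)
    linarith
  have h6 : dd u w = ‖v‖ * ‖wd u w‖ / (‖u‖ * ‖v‖ * ‖w‖) := by
    unfold dd
    field_simp
  have h7 : 2 * dd u v + dd v w = (2 * (‖w‖ * ‖wd u v‖) + ‖u‖ * ‖wd v w‖) / (‖u‖ * ‖v‖ * ‖w‖) := by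
    unfold dd
    field_simp
  rw [h6, h7]
  gcongr

omit [Fintype ι] in
theorem wd_self (u : ι → L) : wd u u = 0 := by
  funext q
  simp only [wd, Pi.zero_apply]
  ring

theorem dd_self (u : ι → L) : dd u u = 0 := by
  unfold dd
  rw [wd_self, norm_zero, zero_div]

omit [Fintype ι] in
theorem continuous_wd (u : ι → L) : Continuous fun v : ι → L => wd u v := by
  refine continuous_pi fun q => ?_
  exact (continuous_const.mul (continuous_apply _)).sub (continuous_const.mul (continuous_apply _))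

theorem continuousAt_dd (u : ι → L) {v : ι → L} (hu : u ≠ 0) (hv : v ≠ 0) :
    ContinuousAt (fun w : ι → L => dd u w) v := by
  unfold dd
  refine ContinuousAt.div (continuous_wd u).norm.continuousAt
    (continuous_const.mul continuous_norm).continuousAt ?_
  exact mul_ne_zero (norm_ne_zero_iff.2 hu) (norm_ne_zero_iff.2 hv)

/-- points in a small neighbourhood have a small distance -/
theorem dd_of_near {x : ι → L} (hx : x ≠ 0) {ε : ℝ} (hε : 0 < ε) :
    ∃ U ∈ 𝓝 x, ∀ (u : ι → L) (c : L), c ≠ 0 → c • u ∈ U → dd x u < ε := by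
  refine ⟨{w | dd x w < ε}, ?_, ?_⟩
  · have h1 := continuousAt_dd x hx hx
    exact h1.eventually_lt continuousAt_const (by rw [dd_self]; exact hε)
  · intro u c hc hu
    have h1 : dd x (c • u) < ε := hu
    rwa [dd_smul_right hc] at h1

/-- points of small distance have representatives in a given neighbourhood -/
theorem near_of_dd {x : ι → L} (hx : x ≠ 0) {U : Set (ι → L)} (hU : U ∈ 𝓝 x) :
    ∃ ε : ℝ, 0 < ε ∧ ∀ u : ι → L, u ≠ 0 → dd x u < ε → ∃ c : L, c ≠ 0 ∧ c • u ∈ U := by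
  obtain ⟨r, hr, hrU⟩ := Metric.mem_nhds_iff.1 hU
  have hx' : 0 < ‖x‖ := norm_pos_iff.2 hx
  refine ⟨min (1 / 2) (r / (2 * ‖x‖)), by positivity, fun u hu hd => ?_⟩
  have hu' : 0 < ‖u‖ := norm_pos_iff.2 hu
  obtain ⟨a, ha⟩ := exists_norm_eq hx
  obtain ⟨j, hj⟩ := exists_norm_eq hu
  have hd1 : dd x u < 1 / 2 := hd.trans_le (min_le_left _ _)
  have hd2 : dd x u < r / (2 * ‖x‖) := hd.trans_le (min_le_right _ _)
  have hwd : ‖wd x u‖ = dd x u * (‖x‖ * ‖u‖) := by
    unfold dd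
    field_simp
  -- the coordinate `u a` is large
  have h1 : ‖u‖ ≤ 2 * ‖u a‖ := by
    have h2 : ‖x a * u j - x j * u a‖ ≤ ‖wd x u‖ := norm_le_pi_norm (wd x u) (a, j)
    have h3 : ‖x a * u j‖ ≤ ‖x a * u j - x j * u a‖ + ‖x j * u a‖ := by
      have := norm_add_le (x a * u j - x j * u a) (x j * u a)
      rwa [sub_add_cancel] at this
    rw [norm_mul, norm_mul, ha, hj] at h3
    have h4 : ‖x j‖ * ‖u a‖ ≤ ‖x‖ * ‖u a‖ :=
      mul_le_mul_of_nonneg_right (norm_le_pi_norm x j) (norm_nonneg _)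
    have h5 : ‖wd x u‖ ≤ 1 / 2 * (‖x‖ * ‖u‖) := by
      rw [hwd]
      gcongr
    have h6 : ‖x‖ * ‖u‖ ≤ ‖x‖ * (2 * ‖u a‖) := by linarith
    exact le_of_mul_le_mul_left h6 hx'
  have hua : u a ≠ 0 := by
    intro h
    rw [h, norm_zero] at h1
    linarith
  have hua' : 0 < ‖u a‖ := norm_pos_iff.2 hua
  have hxa : x a ≠ 0 := by
    rw [← norm_ne_zero_iff, ha]
    exact hx'.ne'
  refine ⟨x a / u a, div_ne_zero hxa hua, hrU ?_⟩
  rw [Metric.mem_ball, dist_eq_norm, pi_norm_lt_iff hr]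
  intro i
  have h2 : ((x a / u a) • u - x) i = (x a * u i - x i * u a) / u a := by
    simp only [Pi.sub_apply, Pi.smul_apply, smul_eq_mul]
    field_simp
  rw [h2, norm_div, div_lt_iff₀ hua']
  have h3 : ‖x a * u i - x i * u a‖ ≤ ‖wd x u‖ := norm_le_pi_norm (wd x u) (a, i)
  have h4 : dd x u * (‖x‖ * ‖u‖) < r / (2 * ‖x‖) * (‖x‖ * ‖u‖) := by
    gcongr
  have h5 : r / (2 * ‖x‖) * (‖x‖ * ‖u‖) = r / 2 * ‖u‖ := by
    field_simp
  have h6 : r / 2 * ‖u‖ ≤ r * ‖u a‖ := by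
    have : r / 2 * ‖u‖ ≤ r / 2 * (2 * ‖u a‖) := by gcongr
    linarith
  rw [hwd] at h3
  linarith

end Pool.Agent.L0h15.MA
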