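import Mathlib
import Pool.Agent.L0h15.MA.Dist

/-!
# Equicontinuous groups and nets
-/

set_option autoImplicit false

open Topology Filter

namespace Pool.Agent.L0h15.MA

section net

variable {L : Type} [NontriviallyNormedField L] [ProperSpace L] {ι : Type} [Fintype ι]

/-- finite nets of projective space -/
theorem exists_net {δ : ℝ} (hδ : 0 < δ) : ∃ T : Set (ι → L), T.Finite ∧ (∀ t ∈ T, t ≠ 0) ∧
    ∀ u : ι → L, u ≠ 0 → ∃ t ∈ T, dd t u < δ := by
  obtain ⟨c, hc⟩ := NormedField.exists_one_lt_norm L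
  set Q : Set (ι → L) := {u | 1 ≤ ‖u‖ ∧ ‖u‖ ≤ ‖c‖} with hQ
  have hQc : IsCompact Q := by
    refine (isCompact_closedBall (0 : ι → L) ‖c‖).of_isClosed_subset ?_ ?_
    · exact (isClosed_le continuous_const continuous_norm).inter
        (isClosed_le continuous_norm continuous_const)
    · rintro u ⟨-, hu⟩
      simpa using hu
  have hQ0 : ∀ u ∈ Q, u ≠ 0 := by
    rintro u ⟨hu, -⟩ rfl
    rw [norm_zero] at hu
    linarith
  obtain ⟨T, hTQ, hT⟩ := hQc.elim_nhds_subcover (fun t => {u | dd t u < δ}) (fun t ht => by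
    exact (continuousAt_dd t (hQ0 t ht) (hQ0 t ht)).eventually_lt continuousAt_const
      (by rw [dd_self]; exact hδ))
  refine ⟨T, T.finite_toSet, fun t ht => hQ0 t (hTQ t ht), fun u hu => ?_⟩
  obtain ⟨m, hm0, hm1, hm2, -⟩ := rescale_to_shell_zpow hc (lt_trans one_pos hc) hu
  rw [div_self (ne_of_gt (lt_trans one_pos hc))] at hm2
  have h1 : c ^ m • u ∈ Q := ⟨hm2, hm1.le⟩
  obtain ⟨t, ht, htu⟩ := Set.mem_iUnion₂.1 (hT h1)
  refine ⟨t, ht, ?_⟩
  have h2 : dd t (c ^ m • u) < δ := htu
  rwa [dd_smul_right hm0] at h2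

end net

section group

variable {L : Type} [NontriviallyNormedField L] {ι : Type} [Fintype ι]
  {M : Type} (vec : M → ι → L) (Γ : Type) [Group Γ] [MulAction Γ M]

/-- equicontinuity -/
def EquiCont : Prop := ∀ ε : ℝ, 0 < ε → ∃ δ : ℝ, 0 < δ ∧ ∀ (γ : Γ) (p q : M),
  dd (vec p) (vec q) < δ → dd (vec (γ • p)) (vec (γ • q)) < ε

variable {Γ}

/-- The elements which move all points by little generate a subgroup of finite index. -/
theorem finiteIndex_small [ProperSpace L] (hvec : ∀ p, vec p ≠ 0) (heq : EquiCont vec Γ)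
    {ε : ℝ} (hε : 0 < ε) :
    (Subgroup.closure {γ : Γ | ∀ p : M, dd (vec (γ • p)) (vec p) < ε}).FiniteIndex := by
  classical
  rcases isEmpty_or_nonempty M with hM | hM
  · have h1 : {γ : Γ | ∀ p : M, dd (vec (γ • p)) (vec p) < ε} = Set.univ :=
      Set.eq_univ_of_forall fun γ p => (IsEmpty.false p).elim
    rw [h1, Subgroup.closure_univ]
    infer_instance
  set H := Subgroup.closure {γ : Γ | ∀ p : M, dd (vec (γ • p)) (vec p) < ε} with hH
  obtain ⟨δ, hδ, hδ1⟩ := heq (ε / 8) (by positivity)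
  obtain ⟨T, hTf, hT0, hT⟩ := exists_net (L := L) (ι := ι)
    (δ := min δ (ε / 8) / 4) (by positivity)
  have : Finite T := hTf
  choose cell hcell hcell' using fun p : M => hT (vec p) (hvec p)
  -- points in the same cell are near
  have hsame : ∀ p q : M, cell p = cell q → dd (vec p) (vec q) < min δ (ε / 8) := by
    intro p q h
    have h1 := dd_triangle (hvec p) (hT0 _ (hcell p)) (hvec q)
    have h2 := hcell' p
    have h3 := hcell' q
    rw [← h] at h3
    rw [dd_comm] at h2
    have h4 : 0 < min δ (ε / 8) := by positivity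
    linarith
  -- a point in each cell
  set rp : T → M := fun t => if h : ∃ p, cell p = t then h.choose else hM.some with hrp
  have hrp' : ∀ p, cell (rp ⟨cell p, hcell p⟩) = cell p := by
    intro p
    have h1 : ∃ q, cell q = ((⟨cell p, hcell p⟩ : T) : ι → L) := ⟨p, rfl⟩
    simp only [hrp, dif_pos h1]
    exact h1.choose_spec
  set c : Γ → (T → T) := fun γ t => ⟨cell (γ • rp t), hcell _⟩ with hc
  have hkey : ∀ γ γ' : Γ, c γ = c γ' → γ⁻¹ * γ' ∈ H := by
    intro γ γ' h
    apply Subgroup.subset_closure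
    intro p
    set q := rp ⟨cell p, hcell p⟩ with hq
    have h1 : cell (γ • q) = cell (γ' • q) := by
      have := congrFun h ⟨cell p, hcell p⟩
      exact congrArg Subtype.val this
    have h2 : dd (vec (γ • q)) (vec (γ' • q)) < δ := (hsame _ _ h1).trans_le (min_le_left _ _)
    have h3 := hδ1 γ⁻¹ _ _ h2
    rw [inv_smul_smul, smul_smul] at h3
    have h4 : dd (vec p) (vec q) < min δ (ε / 8) := hsame _ _ (hrp' p).symm
    have h5 := hδ1 (γ⁻¹ * γ') _ _ (h4.trans_le (min_le_left _ _))
    have h6 := dd_triangle (hvec ((γ⁻¹ * γ') • p)) (hvec ((γ⁻¹ * γ') • q)) (hvec p)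
    have h7 := dd_triangle (hvec ((γ⁻¹ * γ') • q)) (hvec q) (hvec p)
    have h8 : dd (vec q) (vec p) < ε / 8 := by
      rw [dd_comm]
      exact h4.trans_le (min_le_right _ _)
    rw [dd_comm] at h3
    linarith
  have : Finite (Γ ⧸ H) := by
    refine Finite.of_injective (fun q : Γ ⧸ H => c q.out) fun q q' h => ?_
    have h1 := hkey _ _ h
    rw [← QuotientGroup.eq, QuotientGroup.out_eq', QuotientGroup.out_eq'] at h1
    exact h1
  exact Subgroup.finiteIndex_of_finite_quotient

end group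

end Pool.Agent.L0h15.MA
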