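import Mathlib

/-!
# Closed sets which are stable under subgroups of finite index
-/

set_option autoImplicit false

open Topology Filter TopologicalSpace Pointwise

namespace Pool.Agent.L0h15.MA

section core

variable {M : Type} [TopologicalSpace M]

/-- the intersection of the closures of the sets of a filter -/
def core (𝓕 : Filter M) : Set M := {p | ∀ U ∈ 𝓕, p ∈ closure U}

variable [NoetherianSpace M]

theorem exists_minimal_closed (A : Set (Set M)) (hA : A.Nonempty) (hc : ∀ W ∈ A, IsClosed W) :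
    ∃ W ∈ A, ∀ W' ∈ A, W' ⊆ W → W' = W := by
  have h1 : WellFounded ((· < ·) : Closeds M → Closeds M → Prop) := wellFounded_lt
  obtain ⟨W₀, hW₀⟩ := hA
  obtain ⟨W, hW, hmin⟩ := h1.has_min {W : Closeds M | (W : Set M) ∈ A} ⟨⟨W₀, hc W₀ hW₀⟩, hW₀⟩
  refine ⟨W, hW, fun W' hW' hsub => ?_⟩
  by_contra hne
  refine hmin ⟨W', hc W' hW'⟩ hW' ?_
  exact lt_of_le_of_ne hsub fun h => hne (congrArg (fun Z : Closeds M => (Z : Set M)) h)

theorem exists_core (𝓕 : Filter M) : ∃ U ∈ 𝓕, closure U = core 𝓕 := by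
  obtain ⟨W, ⟨U, hU, rfl⟩, hmin⟩ := exists_minimal_closed {W | ∃ U ∈ 𝓕, W = closure U}
    ⟨_, Set.univ, univ_mem, rfl⟩ (by
      rintro _ ⟨U, -, rfl⟩
      exact isClosed_closure)
  refine ⟨U, hU, Set.Subset.antisymm (fun p hp V hV => ?_) fun p hp => hp U hU⟩
  have h1 := hmin (closure (U ∩ V)) ⟨_, inter_mem hU hV, rfl⟩ (closure_mono Set.inter_subset_left)
  rw [← h1] at hp
  exact closure_mono Set.inter_subset_right hp

omit [NoetherianSpace M] in
theorem isClosed_core (𝓕 : Filter M) : IsClosed (core 𝓕) := by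
  have h1 : core 𝓕 = ⋂ U ∈ 𝓕, closure U := by
    ext p
    simp [core]
  rw [h1]
  exact isClosed_biInter fun U _ => isClosed_closure

end core

section action

variable {M : Type} [TopologicalSpace M] (Γ : Type) [Group Γ] [MulAction Γ M]

/-- stable under a subgroup of finite index -/
def AlmostStable (W : Set M) : Prop :=
  ∃ H : Subgroup Γ, H.FiniteIndex ∧ ∀ h ∈ H, ∀ p ∈ W, h • p ∈ W

/-- the intersection of the closures of the orbits of `p` under the subgroups of finite index -/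
def germ (p : M) : Set M :=
  {q | ∀ H : Subgroup Γ, H.FiniteIndex → q ∈ closure {r | ∃ h ∈ H, r = h • p}}

variable {Γ}

theorem mem_germ (p : M) : p ∈ germ Γ p :=
  fun H _ => subset_closure ⟨1, H.one_mem, (one_smul Γ p).symm⟩

theorem germ_subset {W : Set M} (hW : IsClosed W) (hs : AlmostStable Γ W) {p : M} (hp : p ∈ W) :
    germ Γ p ⊆ W := by
  obtain ⟨H, hH, h1⟩ := hs
  intro q hq
  refine hW.closure_subset_iff.2 ?_ (hq H hH)
  rintro _ ⟨h, hh, rfl⟩
  exact h1 h hh p hp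

variable [NoetherianSpace M]

theorem exists_germ (p : M) : ∃ H : Subgroup Γ, H.FiniteIndex ∧
    germ Γ p = closure {r | ∃ h ∈ H, r = h • p} := by
  obtain ⟨W, ⟨H, hH, rfl⟩, hmin⟩ := exists_minimal_closed
    {W | ∃ H : Subgroup Γ, H.FiniteIndex ∧ W = closure {r | ∃ h ∈ H, r = h • p}}
    ⟨_, ⊤, inferInstance, rfl⟩ (by
      rintro _ ⟨H, -, rfl⟩
      exact isClosed_closure)
  refine ⟨H, hH, Set.Subset.antisymm (fun q hq => hq H hH) fun q hq H' hH' => ?_⟩
  have h1 := hmin (closure {r | ∃ h ∈ H ⊓ H', r = h • p}) ⟨H ⊓ H', inferInstance, rfl⟩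
    (closure_mono (by
      rintro _ ⟨h, hh, rfl⟩
      exact ⟨h, hh.1, rfl⟩))
  rw [← h1] at hq
  refine closure_mono ?_ hq
  rintro _ ⟨h, hh, rfl⟩
  exact ⟨h, hh.2, rfl⟩

variable [ContinuousConstSMul Γ M]

omit [NoetherianSpace M] in
theorem smul_closure (γ : Γ) (A : Set M) : γ • closure A = closure (γ • A) := by
  have := (Homeomorph.smul γ).image_closure A
  exact this

omit [NoetherianSpace M] in
theorem germ_smul (γ : Γ) (p : M) : germ Γ (γ • p) = γ • germ Γ p := by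
  have key : ∀ (γ : Γ) (p : M), γ • germ Γ p ⊆ germ Γ (γ • p) := by
    rintro γ p _ ⟨q, hq, rfl⟩ H hH
    have h1 : (H.comap (MulAut.conj γ).toMonoidHom).FiniteIndex := ⟨by
      rw [Subgroup.index_comap_of_surjective H (MulAut.conj γ).surjective]
      exact hH.index_ne_zero⟩
    have h2 := hq _ h1
    have h3 : γ • q ∈ γ • closure {r | ∃ h ∈ H.comap (MulAut.conj γ).toMonoidHom, r = h • p} :=
      Set.smul_mem_smul_set h2
    rw [smul_closure] at h3
    refine closure_mono ?_ h3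
    rintro _ ⟨_, ⟨h, hh, rfl⟩, rfl⟩
    refine ⟨γ * h * γ⁻¹, hh, ?_⟩
    simp only [smul_smul]
    congr 1
    group
  refine Set.Subset.antisymm ?_ (key γ p)
  intro q hq
  have h1 := key γ⁻¹ (γ • p) (Set.smul_mem_smul_set hq)
  rw [inv_smul_smul] at h1
  exact ⟨_, h1, smul_inv_smul γ q⟩

theorem finite_germs (E : Finset M) : {A : Set M | ∃ e ∈ E, ∃ γ : Γ, A = germ Γ (γ • e)}.Finite := by
  have h1 : ∀ e : M, {A : Set M | ∃ γ : Γ, A = germ Γ (γ • e)}.Finite := by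
    intro e
    obtain ⟨H, hH, hg⟩ := exists_germ (Γ := Γ) e
    have h2 : ∀ h ∈ H, h • germ Γ e = germ Γ e := by
      intro h hh
      rw [hg, smul_closure]
      congr 1
      ext r
      constructor
      · rintro ⟨_, ⟨h', hh', rfl⟩, rfl⟩
        exact ⟨h * h', H.mul_mem hh hh', (mul_smul _ _ _).symm⟩
      · rintro ⟨h', hh', rfl⟩
        refine ⟨(h⁻¹ * h') • e, ⟨_, H.mul_mem (H.inv_mem hh) hh', rfl⟩, ?_⟩
        simp only
        rw [smul_smul, mul_inv_cancel_left]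
    refine (Set.finite_range fun q : Γ ⧸ H => q.out • germ Γ e).subset ?_
    rintro _ ⟨γ, rfl⟩
    refine ⟨(γ : Γ ⧸ H), ?_⟩
    simp only
    rw [germ_smul]
    obtain ⟨h, hh⟩ := QuotientGroup.mk_out_eq_mul H γ
    rw [hh, mul_smul, h2 h h.2]
  refine (E.finite_toSet.biUnion fun e _ => h1 e).subset ?_
  rintro A ⟨e, he, γ, rfl⟩
  exact Set.mem_biUnion he ⟨γ, rfl⟩

/-- If the points of `E'` lie in finitely many orbits, there are only finitely many closed sets
which are stable under a subgroup of finite index and closures of sets of points of `E'`. -/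
theorem finite_almostStable (E : Finset M) (E' : Set M)
    (hE : ∀ p ∈ E', ∃ e ∈ E, ∃ γ : Γ, p = γ • e) :
    {W : Set M | IsClosed W ∧ AlmostStable Γ W ∧ W = closure (W ∩ E')}.Finite := by
  have h1 := finite_germs (Γ := Γ) E
  refine (h1.finite_subsets.image fun G : Set (Set M) => ⋃₀ G).subset ?_
  rintro W ⟨hW, hs, hcl⟩
  set G : Set (Set M) := {A | ∃ p ∈ W ∩ E', A = germ Γ p} with hG
  have hGsub : G ⊆ {A : Set M | ∃ e ∈ E, ∃ γ : Γ, A = germ Γ (γ • e)} := by
    rintro _ ⟨p, hp, rfl⟩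
    obtain ⟨e, he, γ, rfl⟩ := hE p hp.2
    exact ⟨e, he, γ, rfl⟩
  refine ⟨G, hGsub, Set.Subset.antisymm ?_ ?_⟩
  · rintro q ⟨_, ⟨p, hp, rfl⟩, hq⟩
    exact germ_subset hW hs hp.1 hq
  · have h2 : IsClosed (⋃₀ G) := by
      rw [Set.sUnion_eq_biUnion]
      refine (h1.subset hGsub).isClosed_biUnion ?_
      rintro _ ⟨p, hp, rfl⟩
      obtain ⟨H, -, h⟩ := exists_germ (Γ := Γ) p
      rw [h]
      exact isClosed_closure
    rw [hcl]
    refine h2.closure_subset_iff.2 fun p hp => ?_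
    exact ⟨germ Γ p, ⟨p, hp, rfl⟩, mem_germ p⟩

/-- the stability of the core of a filter -/
theorem core_almostStable (𝓕 : Filter M)
    (h : ∀ U ∈ 𝓕, ∃ V ∈ 𝓕, ∃ R : Set Γ, (Subgroup.closure R).FiniteIndex ∧
      ∀ γ ∈ R, ∀ p ∈ V, γ • p ∈ U ∧ γ⁻¹ • p ∈ U) :
    AlmostStable Γ (core 𝓕) := by
  obtain ⟨U, hU, hcore⟩ := exists_core 𝓕
  obtain ⟨V, hV, R, hR, h1⟩ := h U hU
  have h2 : ∀ γ : Γ, (∀ p ∈ V, γ • p ∈ U) → ∀ p ∈ core 𝓕, γ • p ∈ core 𝓕 := by
    intro γ hγ p hp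
    have h3 : γ • p ∈ γ • closure V := Set.smul_mem_smul_set (hp V hV)
    rw [smul_closure] at h3
    rw [← hcore]
    refine closure_mono ?_ h3
    rintro _ ⟨q, hq, rfl⟩
    exact hγ q hq
  refine ⟨Subgroup.closure R, hR, fun γ hγ => ?_⟩
  have h3 : ∀ γ ∈ Subgroup.closure R, (∀ p ∈ core 𝓕, γ • p ∈ core 𝓕) ∧
      ∀ p ∈ core 𝓕, γ⁻¹ • p ∈ core 𝓕 := by
    intro γ hγ
    induction hγ using Subgroup.closure_induction with
    | mem γ hγ => exact ⟨h2 γ fun p hp => (h1 γ hγ p hp).1, h2 γ⁻¹ fun p hp => (h1 γ hγ p hp).2⟩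
    | one => simp
    | mul γ γ' _ _ h4 h5 =>
      refine ⟨fun p hp => ?_, fun p hp => ?_⟩
      · rw [mul_smul]
        exact h4.1 _ (h5.1 p hp)
      · rw [mul_inv_rev, mul_smul]
        exact h5.2 _ (h4.2 p hp)
    | inv γ _ h4 => exact ⟨h4.2, by
        rw [inv_inv]
        exact h4.1⟩
  exact (h3 γ hγ).1

end action

end Pool.Agent.L0h15.MA
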