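import Mathlib
import Pool.Agent.L0h15.MZ.Ver
import Pool.Agent.L0h15.MA.Top
import Pool.Agent.L0h15.MA.Equi

/-!
# The Zariski topology on the rational points and the local ideals
-/

set_option autoImplicit false
set_option linter.style.haveILetI false

open MvPolynomial Topology Filter TopologicalSpace Pool.Agent.L0h15.MZ

namespace Pool.Agent.L0h15.MA

section line

variable {K : Type} [Field K] {ι : Type}

/-- the restriction to the line through `y` -/
noncomputable def lineHom (y : ι → K) : MvPolynomial ι K →ₐ[K] Polynomial K :=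
  aeval fun i => Polynomial.C (y i) * Polynomial.X

/-- the polynomials vanishing on the line through `y` -/
noncomputable def lineIdeal (y : ι → K) : Ideal (MvPolynomial ι K) := RingHom.ker (lineHom y)

instance (y : ι → K) : (lineIdeal y).IsPrime := RingHom.ker_isPrime (lineHom y)

theorem eval_lineHom (y : ι → K) (t : K) (f : MvPolynomial ι K) :
    Polynomial.eval t (lineHom y f) = eval (t • y) f := by
  have h1 : (Polynomial.evalRingHom t).comp (lineHom y).toRingHom = eval (t • y) := by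
    apply MvPolynomial.ringHom_ext
    · intro a
      simp [lineHom]
    · intro i
      simp only [RingHom.comp_apply, AlgHom.toRingHom_eq_coe, AlgHom.coe_toRingHom, eval_X]
      rw [lineHom, aeval_X, Polynomial.coe_evalRingHom, Polynomial.eval_mul, Polynomial.eval_C,
        Polynomial.eval_X, mul_comm]
      rfl
  exact congrArg (fun g : MvPolynomial ι K →+* K => g f) h1

theorem mem_lineIdeal [Infinite K] (y : ι → K) (f : MvPolynomial ι K) :
    f ∈ lineIdeal y ↔ ∀ t : K, eval (t • y) f = 0 := by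
  rw [lineIdeal, RingHom.mem_ker]
  constructor
  · intro h t
    rw [← eval_lineHom, h, Polynomial.eval_zero]
  · intro h
    apply Polynomial.funext
    intro t
    rw [eval_lineHom, h, Polynomial.eval_zero]

theorem mem_lineIdeal_smul [Infinite K] {a : K} (ha : a ≠ 0) (y : ι → K) (f : MvPolynomial ι K) :
    f ∈ lineIdeal (a • y) ↔ f ∈ lineIdeal y := by
  rw [mem_lineIdeal, mem_lineIdeal]
  constructor
  · intro h t
    have h1 := h (t * a⁻¹)
    rwa [smul_smul, mul_assoc, inv_mul_cancel₀ ha, mul_one] at h1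
  · intro h t
    rw [smul_smul]
    exact h _

theorem mem_lineIdeal_of_homogeneous [Infinite K] {f : MvPolynomial ι K} {d : ℕ}
    (hf : f.IsHomogeneous d) {y : ι → K} : f ∈ lineIdeal y ↔ eval y f = 0 := by
  rw [mem_lineIdeal]
  constructor
  · intro h
    have h1 := h 1
    rwa [one_smul] at h1
  · intro h t
    rw [eval_smul' hf, h, mul_zero]

end line

section top

variable {K : Type} [Field K] {ι : Type} {M : Type} (rep : M → ι → K)

/-- the prime ideal of a point -/
noncomputable def psi (p : M) : PrimeSpectrum (MvPolynomial ι K) := ⟨lineIdeal (rep p), inferInstance⟩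

/-- the Zariski topology -/
noncomputable abbrev zar : TopologicalSpace M := TopologicalSpace.induced (psi rep) inferInstance

theorem isClosed_zar_iff (W : Set M) : IsClosed[zar rep] W ↔
    ∃ F : Set (MvPolynomial ι K), W = {p | ∀ f ∈ F, f ∈ lineIdeal (rep p)} := by
  letI := zar rep
  rw [isClosed_induced_iff]
  constructor
  · rintro ⟨Z, hZ, rfl⟩
    obtain ⟨F, rfl⟩ := (PrimeSpectrum.isClosed_iff_zeroLocus Z).1 hZ
    exact ⟨F, rfl⟩
  · rintro ⟨F, rfl⟩
    exact ⟨PrimeSpectrum.zeroLocus F, PrimeSpectrum.isClosed_zeroLocus F, rfl⟩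

theorem noetherian_zar [Finite ι] : @NoetherianSpace M (zar rep) := by
  letI := zar rep
  exact (Topology.IsInducing.induced (psi rep)).noetherianSpace

end top

section nb

variable {K L : Type} [Field K] [NontriviallyNormedField L] (σ : K →+* L) {ι : Type}
  {M : Type} (rep : M → ι → K)

/-- the filter of the points near to `x` -/
def nb (x : ι → L) : Filter M where
  sets := {U' | ∃ U ∈ 𝓝 x, ∀ p : M, (∃ c : L, c ≠ 0 ∧ (fun i => c * σ (rep p i)) ∈ U) → p ∈ U'}
  univ_sets := ⟨Set.univ, univ_mem, fun _ _ => trivial⟩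
  sets_of_superset := by
    rintro A B ⟨U, hU, hA⟩ hAB
    exact ⟨U, hU, fun p hp => hAB (hA p hp)⟩
  inter_sets := by
    rintro A B ⟨U, hU, hA⟩ ⟨V, hV, hB⟩
    exact ⟨U ∩ V, inter_mem hU hV, fun p ⟨c, hc0, hc⟩ => ⟨hA p ⟨c, hc0, hc.1⟩, hB p ⟨c, hc0, hc.2⟩⟩⟩

theorem mem_nb {x : ι → L} {A : Set M} : A ∈ nb σ rep x ↔
    ∃ U ∈ 𝓝 x, ∀ p : M, (∃ c : L, c ≠ 0 ∧ (fun i => c * σ (rep p i)) ∈ U) → p ∈ A := Iff.rfl

variable [Infinite K]

/-- `M` is the set of the points of the projective set defined by `S`. -/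
structure Param (S : Set (MvPolynomial ι K)) : Prop where
  ne_zero : ∀ p : M, rep p ≠ 0
  mem : ∀ p : M, ∀ g ∈ S, eval (rep p) g = 0
  surj : ∀ y : ι → K, y ≠ 0 → (∀ g ∈ S, eval y g = 0) → ∃ (p : M) (a : K), a ≠ 0 ∧ y = a • rep p

variable {σ rep} {S : Set (MvPolynomial ι K)}

/-- the local ideal in terms of the filter of the points near to `x` -/
theorem mem_LI_iff (h : Param rep S)
    (S' : Set (MvPolynomial ι K)) (hS' : ∀ s ∈ S', ∃ d : ℕ, s.IsHomogeneous d) (x : ι → L)
    (f : MvPolynomial ι K) : f ∈ LI σ (S ∪ S') x ↔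
      ∃ A ∈ nb σ rep x, ∀ p ∈ A, (∀ g ∈ S', eval (rep p) g = 0) → f ∈ lineIdeal (rep p) := by
  constructor
  · rintro ⟨U, hU, hf⟩
    refine ⟨{p | ∃ c : L, c ≠ 0 ∧ (fun i => c * σ (rep p i)) ∈ U}, ⟨U, hU, fun p hp => hp⟩, ?_⟩
    intro p hp hpS'
    rw [mem_lineIdeal]
    exact hf (rep p) (h.ne_zero p) (fun g hg => hg.elim (h.mem p g) (hpS' g)) hp
  · rintro ⟨A, ⟨U, hU, hA⟩, hf⟩
    refine ⟨U, hU, ?_⟩
    rintro y hy0 hyS ⟨c, hc0, hc⟩
    obtain ⟨p, a, ha, rfl⟩ := h.surj y hy0 fun g hg => hyS g (Or.inl hg)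
    have h1 : p ∈ A := hA p ⟨c * σ a, mul_ne_zero hc0 ((map_ne_zero σ).2 ha), by
      have h2 : (fun i => c * σ a * σ (rep p i)) = fun i => c * σ ((a • rep p) i) := by
        funext i
        rw [Pi.smul_apply, smul_eq_mul, map_mul, mul_assoc]
      rw [h2]
      exact hc⟩
    have h2 := hf p h1 (fun g hg => by
      obtain ⟨d, hd⟩ := hS' g hg
      have h3 := hyS g (Or.inr hg)
      rw [eval_smul' hd] at h3
      exact (mul_eq_zero.1 h3).resolve_left (pow_ne_zero _ ha))
    intro t
    rw [smul_smul]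
    exact (mem_lineIdeal _ _).1 h2 _

omit [Infinite K] in
theorem core_ideal [Finite ι] (𝓕 : Filter M) (f : MvPolynomial ι K) :
    letI := zar rep
    (∃ A ∈ 𝓕, ∀ p ∈ A, f ∈ lineIdeal (rep p)) ↔ ∀ p ∈ core 𝓕, f ∈ lineIdeal (rep p) := by
  letI := zar rep
  haveI := noetherian_zar rep
  constructor
  · rintro ⟨A, hA, hf⟩ p hp
    have h1 : IsClosed {p : M | f ∈ lineIdeal (rep p)} :=
      (isClosed_zar_iff rep _).2 ⟨{f}, by simp⟩
    exact h1.closure_subset_iff.2 hf (hp A hA)
  · intro hf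
    obtain ⟨U, hU, hc⟩ := exists_core 𝓕
    exact ⟨U, hU, fun p hp => hf p (by
      rw [← hc]
      exact subset_closure hp)⟩

end nb

end Pool.Agent.L0h15.MA
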