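import Mathlib
import Pool.Agent.L0h15.MA.Zar

/-!
# Equicontinuous groups of automorphisms and the local Zariski closures
-/

set_option autoImplicit false
set_option linter.style.haveILetI false

open MvPolynomial Topology Filter TopologicalSpace Pool.Agent.L0h15.MZ

namespace Pool.Agent.L0h15.MA

section mor

variable {K : Type} [Field K] [Infinite K] {ι : Type} {M : Type} (rep : M → ι → K)

/-- a map which is given locally by forms -/
def IsMor (g : M → M) : Prop :=
  ∃ (m : ℕ) (d : Fin m → ℕ) (Φ : Fin m → ι → MvPolynomial ι K),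
    (∀ i j, (Φ i j).IsHomogeneous (d i)) ∧
    ∀ p, (∃ i, (fun j => eval (rep p) (Φ i j)) ≠ 0) ∧
      ∀ i, ∃ c : K, (fun j => eval (rep p) (Φ i j)) = c • rep (g p)

variable {rep}

theorem mem_lineIdeal_mor {g : M → M} {m : ℕ} {d : Fin m → ℕ} {Φ : Fin m → ι → MvPolynomial ι K}
    (h1 : ∀ i j, (Φ i j).IsHomogeneous (d i))
    (h2 : ∀ p, (∃ i, (fun j => eval (rep p) (Φ i j)) ≠ 0) ∧
      ∀ i, ∃ c : K, (fun j => eval (rep p) (Φ i j)) = c • rep (g p)) (p : M)
    (f : MvPolynomial ι K) : f ∈ lineIdeal (rep (g p)) ↔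
      ∀ e i, aeval (Φ i) (homogeneousComponent e f) ∈ lineIdeal (rep p) := by
  have h3 : ∀ (e : ℕ) (i : Fin m), (aeval (Φ i) (homogeneousComponent e f)).IsHomogeneous
      (d i * e) := fun e i => (homogeneousComponent_isHomogeneous e f).aeval (Φ i) (h1 i)
  have h4 : ∀ (e : ℕ) (i : Fin m), eval (rep p) (aeval (Φ i) (homogeneousComponent e f)) =
      eval (fun j => eval (rep p) (Φ i j)) (homogeneousComponent e f) := by
    intro e i
    rw [aeval_def, algebraMap_eq, ← coe_eval₂Hom, ← RingHom.comp_apply]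
    congr 1
    apply MvPolynomial.ringHom_ext
    · intro a
      simp
    · intro i
      simp
  have h5 : f ∈ lineIdeal (rep (g p)) ↔ ∀ e, eval (rep (g p)) (homogeneousComponent e f) = 0 := by
    rw [mem_lineIdeal, forall_smul_iff]
  rw [h5]
  constructor
  · intro h e i
    rw [mem_lineIdeal_of_homogeneous (h3 e i), h4]
    obtain ⟨c, hc⟩ := (h2 p).2 i
    rw [hc, eval_smul' (homogeneousComponent_isHomogeneous e f), h e, mul_zero]
  · intro h e
    obtain ⟨i, hi⟩ := (h2 p).1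
    obtain ⟨c, hc⟩ := (h2 p).2 i
    have hc0 : c ≠ 0 := by
      rintro rfl
      rw [zero_smul] at hc
      exact hi hc
    have h6 := h e i
    rw [mem_lineIdeal_of_homogeneous (h3 e i), h4, hc,
      eval_smul' (homogeneousComponent_isHomogeneous e f)] at h6
    exact (mul_eq_zero.1 h6).resolve_left (pow_ne_zero _ hc0)

theorem continuous_of_isMor {g : M → M} (hg : IsMor rep g) :
    @Continuous M M (zar rep) (zar rep) g := by
  letI := zar rep
  obtain ⟨m, d, Φ, h1, h2⟩ := hg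
  rw [continuous_iff_isClosed]
  intro W hW
  obtain ⟨F, rfl⟩ := (isClosed_zar_iff rep W).1 hW
  rw [isClosed_zar_iff]
  refine ⟨{h | ∃ f ∈ F, ∃ e i, h = aeval (Φ i) (homogeneousComponent e f)}, ?_⟩
  ext p
  simp only [Set.mem_preimage, Set.mem_ofPred_eq]
  constructor
  · rintro h _ ⟨f, hf, e, i, rfl⟩
    exact (mem_lineIdeal_mor h1 h2 p f).1 (h f hf) e i
  · intro h f hf
    exact (mem_lineIdeal_mor h1 h2 p f).2 fun e i => h _ ⟨f, hf, e, i, rfl⟩

end mor

section main

variable {K L : Type} [Field K] [Infinite K] [NontriviallyNormedField L] [ProperSpace L]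
  {σ : K →+* L} {ι : Type} [Fintype ι] {M : Type} {rep : M → ι → K} {Γ : Type} [Group Γ]
  [MulAction Γ M]

/-- the point over `L` -/
def vec (σ : K →+* L) (rep : M → ι → K) (p : M) : ι → L := fun i => σ (rep p i)

omit [Infinite K] [ProperSpace L] [Fintype ι] in
theorem vec_ne_zero {p : M} (hp : rep p ≠ 0) : vec σ rep p ≠ 0 := by
  intro h
  apply hp
  funext i
  exact σ.injective (by
    rw [Pi.zero_apply, map_zero]
    exact congrFun h i)

omit [Infinite K] in
/-- the stability of the local Zariski closures -/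
theorem core_nb_almostStable (hne : ∀ p : M, rep p ≠ 0) (heq : EquiCont (vec σ rep) Γ)
    (hcont : @ContinuousConstSMul Γ M (zar rep) _) {x : ι → L} (hx : x ≠ 0) (E : Set M)
    (hE : ∀ (γ : Γ), ∀ p ∈ E, γ • p ∈ E) :
    letI := zar rep
    AlmostStable Γ (core (nb σ rep x ⊓ 𝓟 E)) := by
  letI := zar rep
  haveI := noetherian_zar rep
  apply core_almostStable
  rintro U hU
  rw [mem_inf_principal] at hU
  obtain ⟨U₁, hU₁, hU₂⟩ := hU
  obtain ⟨ε, hε, hεU⟩ := near_of_dd hx hU₁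
  obtain ⟨V₁, hV₁, hV₂⟩ := dd_of_near hx (show 0 < ε / 4 by positivity)
  have hV : {p : M | dd x (vec σ rep p) < ε / 4} ∈ nb σ rep x := by
    refine ⟨V₁, hV₁, ?_⟩
    rintro p ⟨c, hc0, hc⟩
    exact hV₂ (vec σ rep p) c hc0 hc
  refine ⟨{p : M | dd x (vec σ rep p) < ε / 4} ∩ E, ?_, _,
    finiteIndex_small (vec σ rep) (Γ := Γ) (fun p => vec_ne_zero (hne p)) heq
      (show 0 < ε / 4 by positivity), ?_⟩
  · exact inter_mem_inf hV (mem_principal_self E)
  · have key : ∀ p q : M, p ∈ {p : M | dd x (vec σ rep p) < ε / 4} → q ∈ E →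
        dd (vec σ rep p) (vec σ rep q) < ε / 4 → q ∈ U := by
      intro p q hp hq hpq
      have h1 := dd_triangle hx (vec_ne_zero (σ := σ) (hne p)) (vec_ne_zero (σ := σ) (hne q))
      have hp' : dd x (vec σ rep p) < ε / 4 := hp
      obtain ⟨c, hc0, hc⟩ := hεU (vec σ rep q) (vec_ne_zero (hne q)) (by linarith)
      exact hU₂ q ⟨c, hc0, hc⟩ hq
    rintro γ hγ p ⟨hp, hpE⟩
    refine ⟨key p _ hp (hE γ p hpE) ?_, key p _ hp (hE γ⁻¹ p hpE) ?_⟩
    · rw [dd_comm]
      exact hγ p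
    · have h1 := hγ (γ⁻¹ • p)
      rwa [smul_inv_smul] at h1

variable {S : Set (MvPolynomial ι K)}

/-- the stable local closure -/
theorem almostStable_local (h : Param rep S) (heq : EquiCont (vec σ rep) Γ)
    (hmor : ∀ γ : Γ, IsMor rep (fun p => γ • p)) {x : ι → L} (hx : x ≠ 0) :
    ∃ H : Subgroup Γ, H.FiniteIndex ∧ ∀ γ ∈ H, ∀ p : M,
      (∀ f ∈ LI σ S x, eval (rep p) f = 0) → ∀ f ∈ LI σ S x, eval (rep (γ • p)) f = 0 := by
  letI := zar rep
  have hcont : ContinuousConstSMul Γ M := ⟨fun γ => continuous_of_isMor (hmor γ)⟩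
  obtain ⟨H, hH, h1⟩ := core_nb_almostStable (σ := σ) h.ne_zero heq hcont hx Set.univ
    (fun _ _ _ => trivial)
  have h2 : ∀ f : MvPolynomial ι K, f ∈ LI σ S x ↔
      ∀ p ∈ core (nb σ rep x ⊓ 𝓟 Set.univ), f ∈ lineIdeal (rep p) := by
    intro f
    rw [← core_ideal, principal_univ, inf_top_eq]
    have h3 := mem_LI_iff (σ := σ) h ∅ (by simp) x f
    simpa using h3
  -- the points of the core
  have h3 : ∀ p : M, p ∈ core (nb σ rep x ⊓ 𝓟 Set.univ) ↔ ∀ f ∈ LI σ S x, eval (rep p) f = 0 := by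
    intro p
    obtain ⟨F, hF⟩ := (isClosed_zar_iff rep _).1 (isClosed_core (nb σ rep x ⊓ 𝓟 Set.univ))
    constructor
    · intro hp f hf
      have h4 := (mem_lineIdeal _ _).1 ((h2 f).1 hf p hp) 1
      rwa [one_smul] at h4
    · intro hp
      rw [hF]
      intro f hf
      rw [mem_lineIdeal, forall_smul_iff]
      intro d
      refine hp _ ((h2 _).2 fun q hq => ?_)
      rw [hF] at hq
      have h4 := hq f hf
      rw [mem_lineIdeal, forall_smul_iff] at h4
      rw [mem_lineIdeal_of_homogeneous (homogeneousComponent_isHomogeneous d f)]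
      exact h4 d
  refine ⟨H, hH, fun γ hγ p hp => ?_⟩
  exact (h3 _).1 (h1 γ hγ p ((h3 p).2 hp))

/-- finitely many orbits outside of a closed subset -/
theorem finite_of_orbits (h : Param rep S) (hS : ∀ s ∈ S, ∃ d : ℕ, s.IsHomogeneous d)
    (heq : EquiCont (vec σ rep) Γ) (hmor : ∀ γ : Γ, IsMor rep (fun p => γ • p))
    {S' : Set (MvPolynomial ι K)} (hS' : ∀ s ∈ S', ∃ d : ℕ, s.IsHomogeneous d) (E : Finset M)
    (hE : ∀ p : M, (∀ g ∈ S', eval (rep p) g = 0) ∨ ∃ e ∈ E, ∃ γ : Γ, p = γ • e)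
    (hfin : (LIs σ (S ∪ S')).Finite) : (LIs σ S).Finite := by
  letI := zar rep
  haveI := noetherian_zar rep
  have hcont : ContinuousConstSMul Γ M := ⟨fun γ => continuous_of_isMor (hmor γ)⟩
  set E' : Set M := {p | ∃ e ∈ E, ∃ γ : Γ, p = γ • e} with hE'
  have hE'st : ∀ (γ : Γ), ∀ p ∈ E', γ • p ∈ E' := by
    rintro γ _ ⟨e, he, γ', rfl⟩
    exact ⟨e, he, γ * γ', smul_smul _ _ _⟩
  have h1 := finite_almostStable (Γ := Γ) E E' fun p hp => hp
  have h2 := LI_finite_all (S := S ∪ S') (fun s hs => hs.elim (hS s) (hS' s)) hfin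
  refine (Set.Finite.image2 (fun (J : Set (MvPolynomial ι K)) (W : Set M) =>
    {f | f ∈ J ∧ ∀ p ∈ W, f ∈ lineIdeal (rep p)}) h2 h1).subset ?_
  rintro J ⟨x, hx, -, rfl⟩
  refine ⟨_, ⟨x, hx, rfl⟩, core (nb σ rep x ⊓ 𝓟 E'), ⟨isClosed_core _,
    core_nb_almostStable h.ne_zero heq hcont hx E' hE'st, ?_⟩, ?_⟩
  · obtain ⟨U, hU, hc⟩ := exists_core (nb σ rep x ⊓ 𝓟 E')
    refine Set.Subset.antisymm ?_ ?_
    · intro p hp
      have h3 := hp (U ∩ E') (inter_mem hU (mem_inf_of_right (mem_principal_self E')))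
      refine closure_mono ?_ h3
      rintro q ⟨hq, hqE⟩
      exact ⟨by
        rw [← hc]
        exact subset_closure hq, hqE⟩
    · exact (isClosed_core _).closure_subset_iff.2 fun p hp => hp.1
  · ext f
    simp only [Set.mem_ofPred_eq]
    rw [← core_ideal, mem_LI_iff h S' hS']
    have h3 := mem_LI_iff (σ := σ) h ∅ (by simp) x f
    rw [Set.union_empty] at h3
    rw [h3]
    constructor
    · rintro ⟨⟨A, hA, hA'⟩, B, hB, hB'⟩
      rw [mem_inf_principal] at hB
      refine ⟨_, inter_mem hA hB, ?_⟩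
      rintro p ⟨hpA, hpB⟩ -
      rcases hE p with hp | hp
      · exact hA' p hpA hp
      · exact hB' p (hpB hp)
    · rintro ⟨A, hA, hA'⟩
      refine ⟨⟨A, hA, fun p hp _ => hA' p hp (by simp)⟩, A, mem_inf_of_left hA, fun p hp =>
        hA' p hp (by simp)⟩

/-- the proper closed subsets which are stable under subgroups of finite index are contained in a
closed subset -/
theorem finite_of_exceptional (h : Param rep S) (hS : ∀ s ∈ S, ∃ d : ℕ, s.IsHomogeneous d)
    (heq : EquiCont (vec σ rep) Γ) (hmor : ∀ γ : Γ, IsMor rep (fun p => γ • p))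
    {S' : Set (MvPolynomial ι K)} (hS' : ∀ s ∈ S', ∃ d : ℕ, s.IsHomogeneous d)
    (hY : ∀ F : Set (MvPolynomial ι K), (∀ f ∈ F, ∃ d : ℕ, f.IsHomogeneous d) →
      ∀ H : Subgroup Γ, H.FiniteIndex →
      (∀ γ ∈ H, ∀ p : M, (∀ f ∈ F, eval (rep p) f = 0) → ∀ f ∈ F, eval (rep (γ • p)) f = 0) →
      (∃ p : M, ∃ f ∈ F, eval (rep p) f ≠ 0) →
      ∀ p : M, (∀ f ∈ F, eval (rep p) f = 0) → ∀ g ∈ S', eval (rep p) g = 0)
    (hfin : (LIs σ (S ∪ S')).Finite) : (LIs σ S).Finite := by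
  letI := zar rep
  haveI := noetherian_zar rep
  have hcont : ContinuousConstSMul Γ M := ⟨fun γ => continuous_of_isMor (hmor γ)⟩
  have h2 := LI_finite_all (S := S ∪ S') (fun s hs => hs.elim (hS s) (hS' s)) hfin
  refine (h2.union (Set.finite_singleton {f : MvPolynomial ι K | ∀ p : M,
    f ∈ lineIdeal (rep p)})).subset ?_
  rintro J ⟨x, hx, -, rfl⟩
  obtain ⟨H, hH, hst⟩ := core_nb_almostStable (σ := σ) h.ne_zero heq hcont hx Set.univ
    (fun _ _ _ => trivial)
  have h3 : ∀ f : MvPolynomial ι K, f ∈ LI σ S x ↔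
      ∀ p ∈ core (nb σ rep x ⊓ 𝓟 Set.univ), f ∈ lineIdeal (rep p) := by
    intro f
    rw [← core_ideal, principal_univ, inf_top_eq]
    have h3 := mem_LI_iff (σ := σ) h ∅ (by simp) x f
    simpa using h3
  by_cases hW : core (nb σ rep x ⊓ 𝓟 (Set.univ : Set M)) = Set.univ
  · right
    rw [Set.mem_singleton_iff]
    ext f
    rw [h3, hW]
    simp
  · left
    refine ⟨x, hx, ?_⟩
    -- the homogeneous equations of the core
    obtain ⟨F, hF⟩ := (isClosed_zar_iff rep _).1 (isClosed_core (nb σ rep x ⊓ 𝓟 Set.univ))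
    have hmem : ∀ p : M, p ∈ core (nb σ rep x ⊓ 𝓟 (Set.univ : Set M)) ↔
        ∀ f ∈ {h | ∃ f ∈ F, ∃ d, h = homogeneousComponent d f}, eval (rep p) f = 0 := by
      intro p
      rw [hF]
      simp only [Set.mem_ofPred_eq]
      constructor
      · rintro hp _ ⟨f, hf, d, rfl⟩
        have h4 := hp f hf
        rw [mem_lineIdeal, forall_smul_iff] at h4
        exact h4 d
      · intro hp f hf
        rw [mem_lineIdeal, forall_smul_iff]
        exact fun d => hp _ ⟨f, hf, d, rfl⟩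
    have h4 := hY {h | ∃ f ∈ F, ∃ d, h = homogeneousComponent d f} (by
      rintro _ ⟨f, -, d, rfl⟩
      exact ⟨d, homogeneousComponent_isHomogeneous d f⟩) H hH (fun γ hγ p hp => by
      rw [← hmem] at hp ⊢
      exact hst γ hγ p hp) (by
      by_contra hcon
      push Not at hcon
      apply hW
      refine Set.eq_univ_of_forall fun p => ?_
      rw [hmem]
      exact hcon p)
    obtain ⟨U, hU, hc⟩ := exists_core (nb σ rep x ⊓ 𝓟 (Set.univ : Set M))
    rw [principal_univ, inf_top_eq] at hU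
    ext f
    have h5 := mem_LI_iff (σ := σ) h ∅ (by simp) x f
    rw [Set.union_empty] at h5
    rw [h5, mem_LI_iff h S' hS']
    constructor
    · rintro ⟨A, hA, hA'⟩
      exact ⟨A, hA, fun p hp _ => hA' p hp (by simp)⟩
    · rintro ⟨A, hA, hA'⟩
      refine ⟨A ∩ U, inter_mem hA hU, ?_⟩
      rintro p ⟨hpA, hpU⟩ -
      refine hA' p hpA (h4 p ?_)
      rw [← hmem, ← hc]
      exact subset_closure hpU

end main

end Pool.Agent.L0h15.MA
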