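import Mathlib
import Pool.Agent.L0h15.MA.Main

/-!
# Automorphisms with good reduction act by isometries
-/

set_option autoImplicit false

open MvPolynomial Topology Filter Pool.Agent.L0h15.MZ

namespace Pool.Agent.L0h15.MA

section ultra

variable {L : Type} [NormedField L] [IsUltrametricDist L] {ι : Type} [Fintype ι]

theorem norm_add_le_of_le' {a b : L} {r : ℝ} (ha : ‖a‖ ≤ r) (hb : ‖b‖ ≤ r) : ‖a + b‖ ≤ r :=
  (IsUltrametricDist.norm_add_le_max a b).trans (max_le ha hb)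

theorem norm_sub_le_of_le {a b : L} {r : ℝ} (ha : ‖a‖ ≤ r) (hb : ‖b‖ ≤ r) : ‖a - b‖ ≤ r := by
  rw [sub_eq_add_neg]
  exact norm_add_le_of_le' ha (by rwa [norm_neg])

/-- the polynomials which are well behaved at the points `u` and `w` -/
def goodRing (u w : ι → L) (δ : ℝ) (hδ : 0 ≤ δ) : Subring (MvPolynomial ι L) where
  carrier := {P | ‖eval u P‖ ≤ 1 ∧ ‖eval w P‖ ≤ 1 ∧ ‖eval u P - eval w P‖ ≤ δ}
  mul_mem' := by
    rintro P Q ⟨h1, h2, h3⟩ ⟨h4, h5, h6⟩
    refine ⟨?_, ?_, ?_⟩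
    · rw [map_mul, norm_mul]
      exact mul_le_one₀ h1 (norm_nonneg _) h4
    · rw [map_mul, norm_mul]
      exact mul_le_one₀ h2 (norm_nonneg _) h5
    · have h7 : eval u (P * Q) - eval w (P * Q) =
          (eval u P - eval w P) * eval u Q + eval w P * (eval u Q - eval w Q) := by
        rw [map_mul, map_mul]
        ring
      rw [h7]
      apply norm_add_le_of_le'
      · rw [norm_mul]
        calc _ ≤ δ * 1 := mul_le_mul h3 h4 (norm_nonneg _) hδ
          _ = δ := mul_one δ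
      · rw [norm_mul]
        calc _ ≤ 1 * δ := mul_le_mul h2 h6 (norm_nonneg _) zero_le_one
          _ = δ := one_mul δ
  one_mem' := by simp [hδ]
  add_mem' := by
    rintro P Q ⟨h1, h2, h3⟩ ⟨h4, h5, h6⟩
    refine ⟨?_, ?_, ?_⟩
    · rw [map_add]
      exact norm_add_le_of_le' h1 h4
    · rw [map_add]
      exact norm_add_le_of_le' h2 h5
    · have h7 : eval u (P + Q) - eval w (P + Q) =
          (eval u P - eval w P) + (eval u Q - eval w Q) := by
        rw [map_add, map_add]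
        ring
      rw [h7]
      exact norm_add_le_of_le' h3 h6
  zero_mem' := by simp [hδ]
  neg_mem' := by
    rintro P ⟨h1, h2, h3⟩
    refine ⟨?_, ?_, ?_⟩
    · rw [map_neg, norm_neg]
      exact h1
    · rw [map_neg, norm_neg]
      exact h2
    · have h7 : eval u (-P) - eval w (-P) = -(eval u P - eval w P) := by
        rw [map_neg, map_neg]
        ring
      rw [h7, norm_neg]
      exact h3

omit [Fintype ι] in
theorem mem_goodRing {u w : ι → L} {δ : ℝ} (hδ : 0 ≤ δ) (hu : ∀ i, ‖u i‖ ≤ 1)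
    (hw : ∀ i, ‖w i‖ ≤ 1) (huw : ∀ i, ‖u i - w i‖ ≤ δ) (P : MvPolynomial ι L)
    (hP : ∀ m, ‖coeff m P‖ ≤ 1) : P ∈ goodRing u w δ hδ := by
  rw [P.as_sum]
  refine Subring.sum_mem _ fun m _ => ?_
  rw [monomial_eq]
  refine Subring.mul_mem _ ?_ ?_
  · refine ⟨?_, ?_, ?_⟩
    · rw [eval_C]
      exact hP m
    · rw [eval_C]
      exact hP m
    · rw [eval_C, eval_C, sub_self, norm_zero]
      exact hδ
  · refine Subring.prod_mem _ fun i _ => Subring.pow_mem _ ?_ _
    refine ⟨?_, ?_, ?_⟩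
    · rw [eval_X]
      exact hu i
    · rw [eval_X]
      exact hw i
    · rw [eval_X, eval_X]
      exact huw i

theorem dd_le_one (u w : ι → L) : dd u w ≤ 1 := by
  unfold dd
  by_cases h : ‖u‖ * ‖w‖ = 0
  · rw [h, div_zero]
    exact zero_le_one
  · have h1 : 0 < ‖u‖ * ‖w‖ := lt_of_le_of_ne (by positivity) (Ne.symm h)
    rw [div_le_one h1, pi_norm_le_iff_of_nonneg h1.le]
    intro q
    apply norm_sub_le_of_le
    · rw [norm_mul]
      exact mul_le_mul (norm_le_pi_norm u _) (norm_le_pi_norm w _) (norm_nonneg _) (norm_nonneg _)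
    · rw [norm_mul]
      exact mul_le_mul (norm_le_pi_norm u _) (norm_le_pi_norm w _) (norm_nonneg _) (norm_nonneg _)

/-- integral forms do not expand distances -/
theorem dd_forms_le {κ : Type} [Fintype κ] {d : ℕ} {Ψ : κ → MvPolynomial ι L}
    (hd : ∀ j, (Ψ j).IsHomogeneous d)
    (hint : ∀ j m, ‖coeff m (Ψ j)‖ ≤ 1) {u w : ι → L} (hu : u ≠ 0) (hw : w ≠ 0)
    (hgood : ‖fun j => eval u (Ψ j)‖ = ‖u‖ ^ d) (hlt : dd u w < 1) :
    (fun j => eval w (Ψ j)) ≠ 0 ∧
      dd (fun j => eval u (Ψ j)) (fun j => eval w (Ψ j)) ≤ dd u w := by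
  have hu' : 0 < ‖u‖ := norm_pos_iff.2 hu
  have hw' : 0 < ‖w‖ := norm_pos_iff.2 hw
  obtain ⟨a, ha⟩ := exists_norm_eq hu
  obtain ⟨b, hb⟩ := exists_norm_eq hw
  have hwd : ‖wd u w‖ = dd u w * (‖u‖ * ‖w‖) := by
    unfold dd
    field_simp
  have hwa : ‖w a‖ = ‖w‖ := by
    refine le_antisymm (norm_le_pi_norm w a) ?_
    have h1 : ‖u a * w b‖ ≤ max ‖u a * w b - u b * w a‖ ‖u b * w a‖ := by
      have := IsUltrametricDist.norm_add_le_max (u a * w b - u b * w a) (u b * w a)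
      rwa [sub_add_cancel] at this
    have h2 : ‖u a * w b - u b * w a‖ < ‖u a * w b‖ := by
      have h3 : ‖u a * w b - u b * w a‖ ≤ ‖wd u w‖ := norm_le_pi_norm (wd u w) (a, b)
      refine h3.trans_lt ?_
      rw [hwd, norm_mul, ha, hb]
      have h4 : 0 < ‖u‖ * ‖w‖ := by positivity
      nlinarith
    have h3 : ‖u a * w b‖ ≤ ‖u b * w a‖ := by
      rcases le_max_iff.1 h1 with h | h
      · exact absurd h (not_le.2 h2)
      · exact h
    rw [norm_mul, norm_mul, ha, hb] at h3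
    have h4 : ‖u b‖ * ‖w a‖ ≤ ‖u‖ * ‖w a‖ :=
      mul_le_mul_of_nonneg_right (norm_le_pi_norm u b) (norm_nonneg _)
    exact le_of_mul_le_mul_left (h3.trans h4) hu'
  have hua0 : u a ≠ 0 := by
    rw [← norm_ne_zero_iff, ha]
    exact hu'.ne'
  have hwa0 : w a ≠ 0 := by
    rw [← norm_ne_zero_iff, hwa]
    exact hw'.ne'
  -- normalisation
  set u' : ι → L := (u a)⁻¹ • u with hu'def
  set w' : ι → L := (w a)⁻¹ • w with hw'def
  have hmem : ∀ j, Ψ j ∈ goodRing u' w' (dd u w) (dd_nonneg u w) := by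
    intro j
    refine mem_goodRing _ ?_ ?_ ?_ _ (hint j)
    · intro i
      rw [hu'def, Pi.smul_apply, smul_eq_mul, norm_mul, norm_inv, ha, inv_mul_le_iff₀ hu', mul_one]
      exact norm_le_pi_norm u i
    · intro i
      rw [hw'def, Pi.smul_apply, smul_eq_mul, norm_mul, norm_inv, hwa, inv_mul_le_iff₀ hw', mul_one]
      exact norm_le_pi_norm w i
    · intro i
      have h1 : u' i - w' i = (u i * w a - u a * w i) / (u a * w a) := by
        simp only [hu'def, hw'def, Pi.smul_apply, smul_eq_mul]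
        field_simp
      rw [h1, norm_div, norm_mul, ha, hwa]
      unfold dd
      gcongr
      exact norm_le_pi_norm (wd u w) (i, a)
  have hU : (fun j => eval u' (Ψ j)) = ((u a)⁻¹) ^ d • fun j => eval u (Ψ j) := by
    funext j
    rw [hu'def, eval_smul' (hd j)]
    rfl
  have hW : (fun j => eval w' (Ψ j)) = ((w a)⁻¹) ^ d • fun j => eval w (Ψ j) := by
    funext j
    rw [hw'def, eval_smul' (hd j)]
    rfl
  have hUn : ‖fun j => eval u' (Ψ j)‖ = 1 := by
    rw [hU, norm_smul, norm_pow, norm_inv, hgood, ha, inv_pow, inv_mul_cancel₀]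
    positivity
  have hU0 : (fun j => eval u' (Ψ j)) ≠ 0 := by
    rw [← norm_ne_zero_iff, hUn]
    exact one_ne_zero
  have hWn : ‖fun j => eval w' (Ψ j)‖ = 1 := by
    refine le_antisymm ?_ ?_
    · rw [pi_norm_le_iff_of_nonneg zero_le_one]
      exact fun j => (hmem j).2.1
    · obtain ⟨j, hj⟩ := exists_norm_eq hU0
      rw [hUn] at hj
      refine le_trans ?_ (norm_le_pi_norm (fun j => eval w' (Ψ j)) j)
      by_contra hcon
      push Not at hcon
      have h1 := IsUltrametricDist.norm_add_le_max (eval u' (Ψ j) - eval w' (Ψ j)) (eval w' (Ψ j))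
      rw [sub_add_cancel, hj] at h1
      rcases le_max_iff.1 h1 with h | h
      · exact absurd (h.trans (hmem j).2.2) (not_le.2 hlt)
      · exact absurd h (not_le.2 hcon)
  have hW0 : (fun j => eval w (Ψ j)) ≠ 0 := by
    intro h
    rw [hW, h, smul_zero, norm_zero] at hWn
    exact zero_ne_one hWn
  refine ⟨hW0, ?_⟩
  rw [← dd_smul_left (pow_ne_zero d (inv_ne_zero hua0)), ← hU,
    ← dd_smul_right (pow_ne_zero d (inv_ne_zero hwa0)), ← hW]
  conv_lhs => unfold dd
  rw [hUn, hWn, mul_one, div_one, pi_norm_le_iff_of_nonneg (dd_nonneg _ _)]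
  intro q
  have h1 : wd (fun j => eval u' (Ψ j)) (fun j => eval w' (Ψ j)) q =
      (eval u' (Ψ q.1) - eval w' (Ψ q.1)) * eval w' (Ψ q.2) -
        (eval u' (Ψ q.2) - eval w' (Ψ q.2)) * eval w' (Ψ q.1) := by
    simp only [wd]
    ring
  rw [h1]
  apply norm_sub_le_of_le
  · rw [norm_mul]
    calc _ ≤ dd u w * 1 := mul_le_mul (hmem _).2.2 (hmem _).2.1 (norm_nonneg _) (dd_nonneg _ _)
      _ = dd u w := mul_one _
  · rw [norm_mul]
    calc _ ≤ dd u w * 1 := mul_le_mul (hmem _).2.2 (hmem _).2.1 (norm_nonneg _) (dd_nonneg _ _)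
      _ = dd u w := mul_one _

end ultra

section good

variable {K L : Type} [Field K] [NontriviallyNormedField L] [IsUltrametricDist L]
  {σ : K →+* L} {ι : Type} [Fintype ι] {M : Type} {rep : M → ι → K}

/-- good reduction -/
def HasGoodReduction (σ : K →+* L) (rep : M → ι → K) (g : M → M) : Prop :=
  ∃ (m : ℕ) (d : Fin m → ℕ) (Φ : Fin m → ι → MvPolynomial ι K),
    (∀ i j, (Φ i j).IsHomogeneous (d i)) ∧ (∀ i j e, ‖σ (coeff e (Φ i j))‖ ≤ 1) ∧
    ∀ p, (∃ i, ‖fun j => σ (eval (rep p) (Φ i j))‖ = ‖fun j => σ (rep p j)‖ ^ d i) ∧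
      ∀ i, ∃ c : K, (fun j => eval (rep p) (Φ i j)) = c • rep (g p)

omit [IsUltrametricDist L] [Fintype ι] in
theorem eval_map_vec (y : ι → K) (f : MvPolynomial ι K) :
    eval (fun i => σ (y i)) (map σ f) = σ (eval y f) := by
  rw [eval_map]
  exact eval₂_map_eq y f

omit [IsUltrametricDist L] in
theorem isMor_of_good (hne : ∀ p : M, rep p ≠ 0) {g : M → M} (hg : HasGoodReduction σ rep g) :
    IsMor rep g := by
  obtain ⟨m, d, Φ, h1, -, h3⟩ := hg
  refine ⟨m, d, Φ, h1, fun p => ⟨?_, (h3 p).2⟩⟩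
  obtain ⟨i, hi⟩ := (h3 p).1
  refine ⟨i, fun h => ?_⟩
  have h4 : (fun j => σ (eval (rep p) (Φ i j))) = 0 := by
    funext j
    have := congrFun h j
    simp only [Pi.zero_apply] at this ⊢
    rw [this, map_zero]
  rw [h4, norm_zero] at hi
  have h5 : (fun j => σ (rep p j)) ≠ 0 := vec_ne_zero (hne p)
  exact (pow_pos (norm_pos_iff.2 h5) (d i)).ne hi

/-- Maps with good reduction do not expand small distances. -/
theorem dd_le_of_good (hne : ∀ p : M, rep p ≠ 0) {g : M → M} (hg : HasGoodReduction σ rep g)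
    (p q : M) (hpq : dd (vec σ rep p) (vec σ rep q) < 1) :
    dd (vec σ rep (g p)) (vec σ rep (g q)) ≤ dd (vec σ rep p) (vec σ rep q) := by
  obtain ⟨m, d, Φ, h1, h2, h3⟩ := hg
  obtain ⟨i, hi⟩ := (h3 p).1
  have h4 : ∀ r : M, (fun j => eval (vec σ rep r) (map σ (Φ i j))) =
      fun j => σ (eval (rep r) (Φ i j)) := by
    intro r
    funext j
    exact eval_map_vec (rep r) (Φ i j)
  obtain ⟨h5, h6⟩ := dd_forms_le (Ψ := fun j => map σ (Φ i j)) (d := d i)
    (fun j => (h1 i j).map σ) (fun j e => by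
      rw [coeff_map]
      exact h2 i j e) (vec_ne_zero (σ := σ) (hne p)) (vec_ne_zero (σ := σ) (hne q)) (by
      rw [h4]
      exact hi) hpq
  have h7 : ∀ r : M, (fun j => σ (eval (rep r) (Φ i j))) ≠ 0 → ∃ c : L, c ≠ 0 ∧
      (fun j => σ (eval (rep r) (Φ i j))) = c • vec σ rep (g r) := by
    intro r hr
    obtain ⟨c, hc⟩ := (h3 r).2 i
    have h8 : (fun j => σ (eval (rep r) (Φ i j))) = σ c • vec σ rep (g r) := by
      funext j
      have := congrFun hc j
      rw [this]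
      simp [vec]
    refine ⟨σ c, ?_, h8⟩
    intro h0
    rw [h0, zero_smul] at h8
    exact hr h8
  have h8 : (fun j => σ (eval (rep p) (Φ i j))) ≠ 0 := by
    intro h
    rw [h, norm_zero] at hi
    have h5 : (fun j => σ (rep p j)) ≠ 0 := vec_ne_zero (hne p)
    exact (pow_pos (norm_pos_iff.2 h5) (d i)).ne hi
  rw [h4] at h5
  rw [h4, h4] at h6
  obtain ⟨c, hc0, hc⟩ := h7 p h8
  obtain ⟨c', hc0', hc'⟩ := h7 q h5
  rw [hc, hc', dd_smul_left hc0, dd_smul_right hc0'] at h6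
  exact h6

end good

end Pool.Agent.L0h15.MA
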