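import Mathlib
import Pool.Agent.L0h15.MA.Good

/-!
# Automorphisms in a proper algebraic family are equicontinuous
-/

set_option autoImplicit false

open MvPolynomial Topology Filter Pool.Agent.L0h15.MZ

namespace Pool.Agent.L0h15.MA

section bihom

variable {R : Type} [CommRing R] {κ ι : Type} [Fintype κ] [Fintype ι]

/-- bihomogeneous polynomials -/
def IsBihom (f : MvPolynomial (κ ⊕ ι) R) (a b : ℕ) : Prop :=
  ∀ e ∈ f.support, ∑ k, e (Sum.inl k) = a ∧ ∑ j, e (Sum.inr j) = b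

theorem eval_bihom_smul {f : MvPolynomial (κ ⊕ ι) R} {a b : ℕ} (hf : IsBihom f a b) (s t : R)
    (u : κ → R) (v : ι → R) :
    eval (Sum.elim (s • u) (t • v)) f = s ^ a * t ^ b * eval (Sum.elim u v) f := by
  rw [eval_eq', eval_eq', Finset.mul_sum]
  refine Finset.sum_congr rfl fun e he => ?_
  obtain ⟨h1, h2⟩ := hf e he
  rw [Fintype.prod_sum_type, Fintype.prod_sum_type]
  simp only [Sum.elim_inl, Sum.elim_inr, Pi.smul_apply, smul_eq_mul, mul_pow,
    Finset.prod_mul_distrib, Finset.prod_pow_eq_pow_sum, h1, h2]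
  ring

theorem isBihom_map {R' : Type} [CommRing R'] (φ : R →+* R') {f : MvPolynomial (κ ⊕ ι) R}
    {a b : ℕ} (hf : IsBihom f a b) : IsBihom (map φ f) a b := fun e he =>
  hf e (support_map_subset φ f he)

/-- specialisation of the first variables -/
noncomputable def spec (u : κ → R) (f : MvPolynomial (κ ⊕ ι) R) : MvPolynomial ι R :=
  aeval (Sum.elim (fun k => C (u k)) X) f

omit [Fintype κ] [Fintype ι] in
theorem eval_spec (u : κ → R) (v : ι → R) (f : MvPolynomial (κ ⊕ ι) R) :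
    eval v (spec u f) = eval (Sum.elim u v) f := by
  have h1 : (eval v).comp (aeval (Sum.elim (fun k => C (u k)) X) :
      MvPolynomial (κ ⊕ ι) R →ₐ[R] MvPolynomial ι R).toRingHom = eval (Sum.elim u v) := by
    apply MvPolynomial.ringHom_ext
    · intro a
      simp
    · rintro (k | j)
      · simp
      · simp
  exact congrArg (fun g : MvPolynomial (κ ⊕ ι) R →+* R => g f) h1

theorem isHomogeneous_spec (u : κ → R) {f : MvPolynomial (κ ⊕ ι) R} {a b : ℕ}
    (hf : IsBihom f a b) : (spec u f).IsHomogeneous b := by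
  unfold spec
  rw [aeval_def, eval₂_eq']
  refine IsHomogeneous.sum _ _ _ fun e he => ?_
  rw [Fintype.prod_sum_type, ← mul_assoc]
  simp only [Sum.elim_inl, Sum.elim_inr]
  have h1 : (∏ j : ι, (X j : MvPolynomial ι R) ^ e (Sum.inr j)).IsHomogeneous b := by
    rw [← (hf e he).2]
    refine IsHomogeneous.prod _ _ _ fun j _ => ?_
    have h2 := (isHomogeneous_X R j).pow (e (Sum.inr j))
    rwa [one_mul] at h2
  have h2 : (algebraMap R (MvPolynomial ι R) (coeff e f) *
      ∏ k : κ, (C (u k) : MvPolynomial ι R) ^ e (Sum.inl k)).IsHomogeneous 0 := by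
    have h3 : algebraMap R (MvPolynomial ι R) (coeff e f) *
      ∏ k : κ, (C (u k) : MvPolynomial ι R) ^ e (Sum.inl k) =
        C (coeff e f * ∏ k : κ, u k ^ e (Sum.inl k)) := by
      rw [algebraMap_eq, C_mul, map_prod]
      simp only [C_pow]
    rw [h3]
    exact isHomogeneous_C _ _
  have h3 := h2.mul h1
  rwa [zero_add] at h3

end bihom

section wedge

variable {L : Type} [NormedField L] {ι : Type} [Fintype ι]

omit [Fintype ι] in
theorem exists_smul_of_wd {u w : ι → L} (hu : u ≠ 0) (hw : w ≠ 0) (h : wd u w = 0) :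
    ∃ c : L, c ≠ 0 ∧ w = c • u := by
  obtain ⟨i, hi⟩ := Function.ne_iff.1 hu
  rw [Pi.zero_apply] at hi
  have h1 : w = (w i / u i) • u := by
    funext j
    have h2 : u i * w j - u j * w i = 0 := congrFun h (i, j)
    rw [Pi.smul_apply, smul_eq_mul]
    field_simp
    linear_combination h2
  refine ⟨w i / u i, ?_, h1⟩
  intro h0
  rw [h0, zero_smul] at h1
  exact hw h1

theorem continuous_wd' : Continuous fun q : (ι → L) × (ι → L) => wd q.1 q.2 := by
  refine continuous_pi fun q => ?_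
  simp only [wd]
  fun_prop

end wedge

section family

variable {K L : Type} [Field K] [NontriviallyNormedField L] [ProperSpace L]
  {σ : K →+* L} {κ ι : Type} [Fintype κ] [Fintype ι] {M : Type} {rep : M → ι → K} {Γ : Type}
  [Group Γ] [MulAction Γ M]

/-- the uniform continuity of a proper family -/
theorem family_uniform {ST : Set (MvPolynomial κ L)} {S : Set (MvPolynomial ι L)} {m : ℕ}
    {a b : Fin m → ℕ} {Φ : Fin m → ι → MvPolynomial (κ ⊕ ι) L}
    (hST : ∀ s ∈ ST, ∃ d : ℕ, s.IsHomogeneous d) (hS : ∀ s ∈ S, ∃ d : ℕ, s.IsHomogeneous d)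
    (hΦ : ∀ i j, IsBihom (Φ i j) (a i) (b i))
    (hcom : ∀ u : κ → L, u ≠ 0 → (∀ s ∈ ST, eval u s = 0) → ∀ v : ι → L, v ≠ 0 →
      (∀ s ∈ S, eval v s = 0) → ∃ i, (fun j => eval (Sum.elim u v) (Φ i j)) ≠ 0)
    {ε : ℝ} (hε : 0 < ε) : ∃ δ : ℝ, 0 < δ ∧ ∀ u : κ → L, u ≠ 0 → (∀ s ∈ ST, eval u s = 0) →
      ∀ v : ι → L, v ≠ 0 → (∀ s ∈ S, eval v s = 0) → ∀ w : ι → L, w ≠ 0 →
      (∀ s ∈ S, eval w s = 0) → dd v w < δ →
      ∃ i, (fun j => eval (Sum.elim u v) (Φ i j)) ≠ 0 ∧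
        (fun j => eval (Sum.elim u w) (Φ i j)) ≠ 0 ∧
        dd (fun j => eval (Sum.elim u v) (Φ i j)) (fun j => eval (Sum.elim u w) (Φ i j)) < ε := by
  obtain ⟨c, hc⟩ := NormedField.exists_one_lt_norm L
  have hc0 : 0 < ‖c‖ := lt_trans one_pos hc
  -- the compact set
  set 𝒞 : Set ((κ → L) × (ι → L) × (ι → L)) :=
    {q | (1 ≤ ‖q.1‖ ∧ ‖q.1‖ ≤ ‖c‖) ∧ (1 ≤ ‖q.2.1‖ ∧ ‖q.2.1‖ ≤ ‖c‖) ∧
      (1 ≤ ‖q.2.2‖ ∧ ‖q.2.2‖ ≤ ‖c‖) ∧ (∀ s ∈ ST, eval q.1 s = 0) ∧ (∀ s ∈ S, eval q.2.1 s = 0) ∧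
      ∀ s ∈ S, eval q.2.2 s = 0} with h𝒞
  have hclosed : IsClosed 𝒞 := by
    have h1 : Continuous fun q : (κ → L) × (ι → L) × (ι → L) => q.1 := by fun_prop
    have h2 : Continuous fun q : (κ → L) × (ι → L) × (ι → L) => q.2.1 := by fun_prop
    have h3 : Continuous fun q : (κ → L) × (ι → L) × (ι → L) => q.2.2 := by fun_prop
    refine ((isClosed_le continuous_const h1.norm).inter
      (isClosed_le h1.norm continuous_const)).inter ?_
    refine ((isClosed_le continuous_const h2.norm).inter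
      (isClosed_le h2.norm continuous_const)).inter ?_
    refine ((isClosed_le continuous_const h3.norm).inter
      (isClosed_le h3.norm continuous_const)).inter ?_
    have h4 : ∀ {ν : Type} (T : Set (MvPolynomial ν L))
        (g : (κ → L) × (ι → L) × (ι → L) → ν → L), Continuous g →
        IsClosed {q | ∀ s ∈ T, eval (g q) s = 0} := by
      intro ν T g hg
      have h5 : {q | ∀ s ∈ T, eval (g q) s = 0} = ⋂ s ∈ T, {q | eval (g q) s = 0} := by
        ext q
        simp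
      rw [h5]
      exact isClosed_iInter fun s => isClosed_iInter fun _ =>
        isClosed_eq ((continuous_eval s).comp hg) continuous_const
    exact (h4 ST _ h1).inter ((h4 S _ h2).inter (h4 S _ h3))
  have hcompact : IsCompact 𝒞 := by
    refine (isCompact_closedBall (0 : (κ → L) × (ι → L) × (ι → L)) ‖c‖).of_isClosed_subset
      hclosed ?_
    rintro ⟨u, v, w⟩ ⟨⟨-, h1⟩, ⟨-, h2⟩, ⟨-, h3⟩, -⟩
    rw [mem_closedBall_zero_iff, Prod.norm_def, Prod.norm_def]
    exact max_le h1 (max_le h2 h3)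
  have hne : ∀ {ν : Type} [Fintype ν] (u : ν → L), 1 ≤ ‖u‖ → u ≠ 0 := by
    rintro ν _ u hu rfl
    rw [norm_zero] at hu
    linarith
  -- the open set
  set A : Fin m → (κ → L) × (ι → L) × (ι → L) → ι → L :=
    fun i q j => eval (Sum.elim q.1 q.2.1) (Φ i j) with hA
  set B : Fin m → (κ → L) × (ι → L) × (ι → L) → ι → L :=
    fun i q j => eval (Sum.elim q.1 q.2.2) (Φ i j) with hB
  have hAc : ∀ i, Continuous (A i) := by
    intro i
    refine continuous_pi fun j => (continuous_eval (Φ i j)).comp ?_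
    refine continuous_pi fun k => ?_
    rcases k with k | k
    · simp only [Sum.elim_inl]
      fun_prop
    · simp only [Sum.elim_inr]
      fun_prop
  have hBc : ∀ i, Continuous (B i) := by
    intro i
    refine continuous_pi fun j => (continuous_eval (Φ i j)).comp ?_
    refine continuous_pi fun k => ?_
    rcases k with k | k
    · simp only [Sum.elim_inl]
      fun_prop
    · simp only [Sum.elim_inr]
      fun_prop
  set O : Set ((κ → L) × (ι → L) × (ι → L)) :=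
    {q | ∃ i, ‖wd (A i q) (B i q)‖ < ε * (‖A i q‖ * ‖B i q‖)} with hO
  have hOopen : IsOpen O := by
    rw [hO]
    simp only [Set.ofPred_exists]
    refine isOpen_iUnion fun i => isOpen_lt ?_ ?_
    · exact (continuous_wd'.comp ((hAc i).prodMk (hBc i))).norm
    · exact continuous_const.mul ((hAc i).norm.mul (hBc i).norm)
  have hOuse : ∀ q ∈ O, ∃ i, A i q ≠ 0 ∧ B i q ≠ 0 ∧ dd (A i q) (B i q) < ε := by
    rintro q ⟨i, hi⟩
    have h1 : 0 < ε * (‖A i q‖ * ‖B i q‖) := (norm_nonneg _).trans_lt hi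
    have h2 : 0 < ‖A i q‖ * ‖B i q‖ := by
      by_contra hcon
      push Not at hcon
      have := mul_nonpos_of_nonneg_of_nonpos hε.le hcon
      linarith
    have h3 : A i q ≠ 0 := by
      intro h
      rw [h, norm_zero, zero_mul] at h2
      exact lt_irrefl _ h2
    have h4 : B i q ≠ 0 := by
      intro h
      rw [h, norm_zero, mul_zero] at h2
      exact lt_irrefl _ h2
    refine ⟨i, h3, h4, ?_⟩
    unfold dd
    rw [div_lt_iff₀ h2]
    exact hi
  have hrest : IsCompact (𝒞 \ O) := hcompact.diff hOopen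
  have hcont : Continuous fun q : (κ → L) × (ι → L) × (ι → L) => ‖wd q.2.1 q.2.2‖ :=
    (continuous_wd'.comp continuous_snd).norm
  have hmin : ∃ μ : ℝ, 0 < μ ∧ ∀ q ∈ 𝒞, ‖wd q.2.1 q.2.2‖ < μ → q ∈ O := by
    rcases (𝒞 \ O).eq_empty_or_nonempty with h | h
    · refine ⟨1, one_pos, fun q hq _ => ?_⟩
      by_contra hqO
      have : q ∈ 𝒞 \ O := ⟨hq, hqO⟩
      rw [h] at this
      exact this
    · obtain ⟨q₀, hq₀, hq₁⟩ := hrest.exists_isMinOn h hcont.continuousOn
      refine ⟨‖wd q₀.2.1 q₀.2.2‖, ?_, fun q hq hlt => ?_⟩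
      · rw [norm_pos_iff]
        intro h0
        obtain ⟨⟨⟨hu, -⟩, ⟨hv, -⟩, ⟨hw, -⟩, hu1, hv1, -⟩, hqO⟩ := hq₀
        obtain ⟨c', hc'0, hc'⟩ := exists_smul_of_wd (hne _ hv) (hne _ hw) h0
        obtain ⟨i, hi⟩ := hcom _ (hne _ hu) hu1 _ (hne _ hv) hv1
        apply hqO
        refine ⟨i, ?_⟩
        have h1 : B i q₀ = c' ^ b i • A i q₀ := by
          funext j
          simp only [hA, hB, Pi.smul_apply, smul_eq_mul]
          have h2 := eval_bihom_smul (hΦ i j) 1 c' q₀.1 q₀.2.1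
          rw [one_smul, one_pow, one_mul] at h2
          rw [hc', h2]
        have h2 : A i q₀ ≠ 0 := hi
        have h3 : wd (A i q₀) (B i q₀) = 0 := by
          rw [h1]
          funext r
          simp only [wd, Pi.smul_apply, smul_eq_mul, Pi.zero_apply]
          ring
        rw [h3, norm_zero, h1, norm_smul]
        have h4 : 0 < ‖A i q₀‖ := norm_pos_iff.2 h2
        have h5 : 0 < ‖c' ^ b i‖ := norm_pos_iff.2 (pow_ne_zero _ hc'0)
        positivity
      · by_contra hqO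
        have h1 := (isMinOn_iff.1 hq₁) q ⟨hq, hqO⟩
        exact absurd hlt (not_lt.2 h1)
  obtain ⟨μ, hμ, hμO⟩ := hmin
  refine ⟨μ / (‖c‖ * ‖c‖), by positivity, fun u hu hu1 v hv hv1 w hw hw1 hvw => ?_⟩
  -- normalisation
  have hnorm : ∀ {ν : Type} [Fintype ν] (u : ν → L), u ≠ 0 → ∃ s : L, s ≠ 0 ∧ 1 ≤ ‖s • u‖ ∧
      ‖s • u‖ ≤ ‖c‖ := by
    intro ν _ u hu
    obtain ⟨m, hm0, hm1, hm2, -⟩ := rescale_to_shell_zpow hc hc0 hu
    rw [div_self hc0.ne'] at hm2
    exact ⟨c ^ m, hm0, hm2, hm1.le⟩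
  obtain ⟨r, hr0, hr1, hr2⟩ := hnorm u hu
  obtain ⟨s, hs0, hs1, hs2⟩ := hnorm v hv
  obtain ⟨t, ht0, ht1, ht2⟩ := hnorm w hw
  have hmem : ((r • u, s • v, t • w) : (κ → L) × (ι → L) × (ι → L)) ∈ 𝒞 := by
    refine ⟨⟨hr1, hr2⟩, ⟨hs1, hs2⟩, ⟨ht1, ht2⟩, ?_, ?_, ?_⟩
    · intro f hf
      obtain ⟨d, hd⟩ := hST f hf
      change eval (r • u) f = 0
      rw [eval_smul' hd, hu1 f hf, mul_zero]
    · intro f hf
      obtain ⟨d, hd⟩ := hS f hf
      change eval (s • v) f = 0
      rw [eval_smul' hd, hv1 f hf, mul_zero]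
    · intro f hf
      obtain ⟨d, hd⟩ := hS f hf
      change eval (t • w) f = 0
      rw [eval_smul' hd, hw1 f hf, mul_zero]
  have h1 : ‖wd (s • v) (t • w)‖ < μ := by
    have h2 : dd (s • v) (t • w) < μ / (‖c‖ * ‖c‖) := by
      rwa [dd_smul_left hs0, dd_smul_right ht0]
    unfold dd at h2
    have h3 : 0 < ‖s • v‖ * ‖t • w‖ := by nlinarith
    rw [div_lt_iff₀ h3] at h2
    refine h2.trans_le ?_
    rw [div_mul_eq_mul_div, div_le_iff₀ (by positivity)]
    have h4 : ‖s • v‖ * ‖t • w‖ ≤ ‖c‖ * ‖c‖ :=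
      mul_le_mul hs2 ht2 (norm_nonneg _) (norm_nonneg _)
    exact mul_le_mul_of_nonneg_left h4 hμ.le
  obtain ⟨i, hi1, hi2, hi3⟩ := hOuse _ (hμO _ hmem h1)
  have h2 : A i (r • u, s • v, t • w) =
      (r ^ a i * s ^ b i) • fun j => eval (Sum.elim u v) (Φ i j) := by
    funext j
    simp only [hA, Pi.smul_apply, smul_eq_mul]
    exact eval_bihom_smul (hΦ i j) r s u v
  have h3 : B i (r • u, s • v, t • w) =
      (r ^ a i * t ^ b i) • fun j => eval (Sum.elim u w) (Φ i j) := by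
    funext j
    simp only [hB, Pi.smul_apply, smul_eq_mul]
    exact eval_bihom_smul (hΦ i j) r t u w
  rw [h2] at hi1 hi3
  rw [h3] at hi2 hi3
  refine ⟨i, fun h => hi1 (by rw [h, smul_zero]), fun h => hi2 (by rw [h, smul_zero]), ?_⟩
  rwa [dd_smul_left (mul_ne_zero (pow_ne_zero _ hr0) (pow_ne_zero _ hs0)),
    dd_smul_right (mul_ne_zero (pow_ne_zero _ hr0) (pow_ne_zero _ ht0))] at hi3

end family

end Pool.Agent.L0h15.MA
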