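import Mathlib
import Pool.Agent.L0h15.MA.Main

/-!
# The periodic irreducible closed subsets
-/

set_option autoImplicit false
set_option linter.style.haveILetI false

open MvPolynomial Topology Filter TopologicalSpace Pointwise Pool.Agent.L0h15.MZ

namespace Pool.Agent.L0h15.MA

section action

variable {M : Type} [TopologicalSpace M] {Γ : Type} [Group Γ] [MulAction Γ M]
  [NoetherianSpace M] [ContinuousConstSMul Γ M]

/-- the finitely many maximal irreducible closed subsets of a closed set -/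
theorem exists_maximal_irreducible {W : Set M} (hW : IsClosed W) : ∃ A : Set (Set M), A.Finite ∧
    (∀ t ∈ A, IsClosed t) ∧ (∀ t ∈ A, IsIrreducible t) ∧ W = ⋃₀ A ∧
    (∀ t ∈ A, ∀ t' ∈ A, t ⊆ t' → t = t') ∧
    ∀ C : Set M, IsIrreducible C → C ⊆ W → ∃ t ∈ A, C ⊆ t := by
  obtain ⟨B, hBf, hBc, hBi, hB⟩ := NoetherianSpace.exists_finite_set_isClosed_irreducible hW
  have hmax : ∀ t ∈ B, ∃ t' ∈ {t ∈ B | ∀ t' ∈ B, t ⊆ t' → t = t'}, t ⊆ t' := by
    intro t ht
    obtain ⟨t', htt', ht', hmax⟩ := hBf.exists_le_maximal ht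
    exact ⟨t', ⟨ht', fun s hs h => Set.Subset.antisymm h (hmax hs h)⟩, htt'⟩
  refine ⟨{t ∈ B | ∀ t' ∈ B, t ⊆ t' → t = t'}, hBf.subset fun t ht => ht.1,
    fun t ht => hBc t ht.1, fun t ht => hBi t ht.1, ?_, fun t ht t' ht' => ht.2 t' ht'.1, ?_⟩
  · rw [hB]
    refine Set.Subset.antisymm ?_ (Set.sUnion_mono fun t ht => ht.1)
    rintro p ⟨t, ht, hp⟩
    obtain ⟨t', ht', h⟩ := hmax t ht
    exact ⟨t', ht', h hp⟩
  · intro C hC hCW
    obtain ⟨t, ht, h⟩ := isIrreducible_iff_sUnion_isClosed.1 hC hBf.toFinset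
      (fun z hz => hBc z (hBf.mem_toFinset.1 hz)) (by
        rw [hBf.coe_toFinset, ← hB]
        exact hCW)
    obtain ⟨t', ht', h'⟩ := hmax t (hBf.mem_toFinset.1 ht)
    exact ⟨t', ht', h.trans h'⟩

/-- The maximal irreducible closed subsets of a periodic closed set are periodic. -/
theorem exists_periodic_irreducible {W : Set M} (hW : IsClosed W) (hs : AlmostStable Γ W) :
    ∃ A : Set (Set M), (∀ t ∈ A, IsClosed t ∧ IsIrreducible t ∧ AlmostStable Γ t) ∧ W = ⋃₀ A := by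
  obtain ⟨A, hAf, hAc, hAi, hAW, hAm, hAC⟩ := exists_maximal_irreducible hW
  obtain ⟨H, hH, hst⟩ := hs
  refine ⟨A, fun t ht => ⟨hAc t ht, hAi t ht, ?_⟩, hAW⟩
  -- irreducible sets are moved to irreducible sets
  have hirr : ∀ (γ : Γ) (C : Set M), IsIrreducible C → IsIrreducible (γ • C) := by
    intro γ C hC
    exact hC.image (fun p => γ • p) (continuous_const_smul γ).continuousOn
  have hsub : ∀ h ∈ H, ∀ C : Set M, C ⊆ W → h • C ⊆ W := by
    rintro h hh C hC _ ⟨p, hp, rfl⟩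
    exact hst h hh p (hC hp)
  have hperm : ∀ h ∈ H, ∀ t ∈ A, h • t ∈ A := by
    intro h hh t ht
    have htW : t ⊆ W := by
      rw [hAW]
      exact Set.subset_sUnion_of_mem ht
    obtain ⟨t', ht', h1⟩ := hAC (h • t) (hirr h t (hAi t ht)) (hsub h hh t htW)
    have ht'W : t' ⊆ W := by
      rw [hAW]
      exact Set.subset_sUnion_of_mem ht'
    obtain ⟨t'', ht'', h2⟩ := hAC (h⁻¹ • t') (hirr h⁻¹ t' (hAi t' ht'))
      (hsub h⁻¹ (H.inv_mem hh) t' ht'W)
    have h3 : t ⊆ h⁻¹ • t' := by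
      intro p hp
      exact ⟨h • p, h1 (Set.smul_mem_smul_set hp), inv_smul_smul h p⟩
    have h4 : t = t'' := hAm t ht t'' ht'' (h3.trans h2)
    have h5 : t' ⊆ h • t := by
      intro p hp
      have h6 : h⁻¹ • p ∈ t := by
        rw [h4]
        exact h2 (Set.smul_mem_smul_set hp)
      exact ⟨h⁻¹ • p, h6, smul_inv_smul h p⟩
    rw [Set.Subset.antisymm h1 h5]
    exact ht'
  -- the stabilizer
  have horb : (MulAction.orbit H t).Finite := by
    refine hAf.subset ?_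
    rintro _ ⟨⟨h, hh⟩, rfl⟩
    exact hperm h hh t ht
  refine ⟨(MulAction.stabilizer H t).map H.subtype, ⟨?_⟩, ?_⟩
  · rw [Subgroup.index_map_subtype, MulAction.index_stabilizer]
    refine mul_ne_zero ?_ hH.index_ne_zero
    exact ((Set.ncard_pos horb).2 ⟨t, MulAction.mem_orbit_self t⟩).ne'
  · rintro _ ⟨⟨h, hh⟩, hst', rfl⟩ p hp
    have h1 : (⟨h, hh⟩ : H) • t = t := hst'
    have h2 : h • t = t := h1
    rw [← h2]
    exact Set.smul_mem_smul_set hp

end action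

section main

variable {K L : Type} [Field K] [Infinite K] [NontriviallyNormedField L] [ProperSpace L]
  {σ : K →+* L} {ι : Type} [Fintype ι] {M : Type} {rep : M → ι → K} {Γ : Type} [Group Γ]
  [MulAction Γ M] {S : Set (MvPolynomial ι K)}

/-- All but finitely many of the periodic irreducible closed subsets are contained in a closed
subset. -/
theorem finite_of_periodic (h : Param rep S) (hS : ∀ s ∈ S, ∃ d : ℕ, s.IsHomogeneous d)
    (heq : EquiCont (vec σ rep) Γ) (hmor : ∀ γ : Γ, IsMor rep (fun p => γ • p))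
    {S' : Set (MvPolynomial ι K)} (hS' : ∀ s ∈ S', ∃ d : ℕ, s.IsHomogeneous d)
    (hY : {Z : Set M | IsClosed[zar rep] Z ∧ @IsIrreducible M (zar rep) Z ∧ AlmostStable Γ Z ∧
      ¬ ∀ p ∈ Z, ∀ g ∈ S', eval (rep p) g = 0}.Finite)
    (hfin : (LIs σ (S ∪ S')).Finite) : (LIs σ S).Finite := by
  letI := zar rep
  haveI := noetherian_zar rep
  have hcont : ContinuousConstSMul Γ M := ⟨fun γ => continuous_of_isMor (hmor γ)⟩
  have h2 := LI_finite_all (S := S ∪ S') (fun s hs => hs.elim (hS s) (hS' s)) hfin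
  refine (Set.Finite.image2 (fun (J : Set (MvPolynomial ι K)) (T : Set (Set M)) =>
    {f | f ∈ J ∧ ∀ Z ∈ T, ∀ p ∈ Z, f ∈ lineIdeal (rep p)}) h2 hY.finite_subsets).subset ?_
  rintro J ⟨x, hx, -, rfl⟩
  have hst := core_nb_almostStable (σ := σ) h.ne_zero heq hcont hx Set.univ
    (fun _ _ _ => trivial)
  rw [principal_univ, inf_top_eq] at hst
  obtain ⟨A, hA, hWA⟩ := exists_periodic_irreducible (isClosed_core (nb σ rep x)) hst
  obtain ⟨U, hU, hc⟩ := exists_core (nb σ rep x)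
  refine ⟨_, ⟨x, hx, rfl⟩, {Z ∈ A | ¬ ∀ p ∈ Z, ∀ g ∈ S', eval (rep p) g = 0}, ?_, ?_⟩
  · rintro Z ⟨hZ, hZ'⟩
    exact ⟨(hA Z hZ).1, (hA Z hZ).2.1, (hA Z hZ).2.2, hZ'⟩
  · ext f
    simp only [Set.mem_ofPred_eq]
    have h3 := mem_LI_iff (σ := σ) h ∅ (by simp) x f
    rw [Set.union_empty] at h3
    rw [mem_LI_iff h S' hS', h3]
    constructor
    · rintro ⟨⟨B, hB, hB'⟩, hT⟩
      refine ⟨B ∩ U, inter_mem hB hU, ?_⟩
      rintro p ⟨hpB, hpU⟩ -
      have hp : p ∈ core (nb σ rep x) := by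
        rw [← hc]
        exact subset_closure hpU
      rw [hWA] at hp
      obtain ⟨Z, hZ, hpZ⟩ := hp
      by_cases hZY : ∀ p ∈ Z, ∀ g ∈ S', eval (rep p) g = 0
      · exact hB' p hpB (hZY p hpZ)
      · exact hT Z ⟨hZ, hZY⟩ p hpZ
    · rintro ⟨B, hB, hB'⟩
      refine ⟨⟨B, hB, fun p hp _ => hB' p hp (by simp)⟩, ?_⟩
      rintro Z ⟨hZ, -⟩ p hp
      have h4 := (core_ideal (nb σ rep x) f).1 ⟨B, hB, fun p hp => hB' p hp (by simp)⟩
      exact h4 p (by
        rw [hWA]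
        exact ⟨Z, hZ, hp⟩)

end main

end Pool.Agent.L0h15.MA
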