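import Mathlib
import Pool.Agent.L0h15.MA.Fam

/-!
# Forms without common zeros, and good reduction at almost all places
-/

set_option autoImplicit false

open MvPolynomial Topology Filter Pool.Agent.L0h15.MZ

namespace Pool.Agent.L0h15.MA

section null

variable {K : Type} [Field K]

/-- the Nullstellensatz -/
theorem exists_pow_mem {ν : Type} [Finite ν] (T : Set (MvPolynomial ν K)) (f : MvPolynomial ν K)
    (h : ∀ v : ν → AlgebraicClosure K, (∀ g ∈ T, aeval v g = 0) → aeval v f = 0) :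
    ∃ N : ℕ, f ^ N ∈ Ideal.span T := by
  have h1 : f ∈ (Ideal.span T).radical := by
    rw [← vanishingIdeal_zeroLocus_eq_radical (K := AlgebraicClosure K), mem_vanishingIdeal_iff]
    intro v hv
    apply h
    intro g hg
    exact (mem_zeroLocus_iff.1 hv) g (Ideal.subset_span hg)
  exact Ideal.mem_radical_iff.1 h1

/-- the powers of `f` in terms of the generators -/
theorem exists_pow_eq {ν κ : Type} [Finite ν] [Fintype κ] (S : Set (MvPolynomial ν K))
    (Φ : κ → MvPolynomial ν K) (f : MvPolynomial ν K)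
    (h : ∀ v : ν → AlgebraicClosure K, (∀ g ∈ S, aeval v g = 0) → (∀ i, aeval v (Φ i) = 0) →
      aeval v f = 0) :
    ∃ (N : ℕ) (A : κ → MvPolynomial ν K), f ^ N - ∑ i, A i * Φ i ∈ Ideal.span S := by
  obtain ⟨N, hN⟩ := exists_pow_mem (S ∪ Set.range Φ) f fun v hv =>
    h v (fun g hg => hv g (Or.inl hg)) fun i => hv _ (Or.inr ⟨i, rfl⟩)
  rw [Ideal.span_union, Submodule.mem_sup] at hN
  obtain ⟨a, ha, b, hb, hab⟩ := hN
  obtain ⟨A, hA⟩ := (Ideal.mem_span_range_iff_exists_fun).1 hb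
  refine ⟨N, A, ?_⟩
  rw [hA, ← hab, add_sub_cancel_right]
  exact ha

theorem eval₂_eq_zero_of_mem_span {ν R : Type} [CommRing R] (σ : K →+* R)
    {S : Set (MvPolynomial ν K)} {v : ν → R} (hv : ∀ s ∈ S, eval₂ σ v s = 0)
    {f : MvPolynomial ν K} (hf : f ∈ Ideal.span S) : eval₂ σ v f = 0 := by
  have h1 : Ideal.span S ≤ RingHom.ker (eval₂Hom σ v) := Ideal.span_le.2 hv
  exact h1 hf

end null

section good

variable {K L : Type} [Field K] [NontriviallyNormedField L] [IsUltrametricDist L]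
  {σ : K →+* L} {ι : Type} [Fintype ι] {M : Type} {rep : M → ι → K} {Γ : Type} [Group Γ]
  [MulAction Γ M]

omit [Fintype ι] in
theorem norm_eval₂_le {f : MvPolynomial ι K} (hf : ∀ e, ‖σ (coeff e f)‖ ≤ 1) {v : ι → L}
    (hv : ∀ i, ‖v i‖ ≤ 1) : ‖eval₂ σ v f‖ ≤ 1 := by
  have h1 := mem_goodRing (u := v) (w := v) (δ := 0) le_rfl hv hv (fun i => by
    rw [sub_self, norm_zero]) (map σ f) (fun e => by
    rw [coeff_map]
    exact hf e)
  have h2 := h1.1
  rwa [eval_map] at h2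

/-- integral equations give good reduction -/
theorem hasGoodReduction_of_integral {S : Set (MvPolynomial ι K)} (hne : ∀ p : M, rep p ≠ 0)
    (hmem : ∀ p : M, ∀ s ∈ S, eval (rep p) s = 0) {g : M → M} {m : ℕ} {d : Fin m → ℕ}
    {Φ : Fin m → ι → MvPolynomial ι K} (hS : ∀ s ∈ S, ∃ d : ℕ, s.IsHomogeneous d)
    (h1 : ∀ i j, (Φ i j).IsHomogeneous (d i))
    (h2 : ∀ p i, ∃ c : K, (fun j => eval (rep p) (Φ i j)) = c • rep (g p))
    {N : ι → ℕ} {A : ι → Fin m × ι → MvPolynomial ι K}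
    (hA : ∀ k, X k ^ N k - ∑ i, A k i * Φ i.1 i.2 ∈ Ideal.span S)
    (hi1 : ∀ i j e, ‖σ (coeff e (Φ i j))‖ ≤ 1) (hi2 : ∀ k i e, ‖σ (coeff e (A k i))‖ ≤ 1) :
    HasGoodReduction σ rep g := by
  refine ⟨m, d, Φ, h1, hi1, fun p => ⟨?_, h2 p⟩⟩
  set u := vec σ rep p with hu
  have hu0 : u ≠ 0 := vec_ne_zero (hne p)
  have hu' : 0 < ‖u‖ := norm_pos_iff.2 hu0
  obtain ⟨k, hk⟩ := exists_norm_eq hu0
  have huk : u k ≠ 0 := by
    rw [← norm_ne_zero_iff, hk]
    exact hu'.ne'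
  set v : ι → L := (u k)⁻¹ • u with hv
  have hvk : v k = 1 := by
    rw [hv, Pi.smul_apply, smul_eq_mul, inv_mul_cancel₀ huk]
  have hv1 : ∀ i, ‖v i‖ ≤ 1 := by
    intro i
    rw [hv, Pi.smul_apply, smul_eq_mul, norm_mul, norm_inv, hk, inv_mul_le_iff₀ hu', mul_one]
    exact norm_le_pi_norm u i
  have hvS : ∀ s ∈ S, eval₂ σ v s = 0 := by
    intro s hs
    obtain ⟨d, hd⟩ := hS s hs
    rw [← eval_map, hv, eval_smul' (hd.map σ), hu]
    have h3 := eval_map_vec (σ := σ) (rep p) s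
    change _ * eval (fun i => σ (rep p i)) (map σ s) = 0
    rw [h3, hmem p s hs, map_zero, mul_zero]
  have h3 := eval₂_eq_zero_of_mem_span σ hvS (hA k)
  rw [eval₂_sub, eval₂_pow, eval₂_X, hvk, one_pow, sub_eq_zero, eval₂_sum] at h3
  -- one of the summands has norm at least one
  have h4 : ∃ i : Fin m × ι, 1 ≤ ‖eval₂ σ v (A k i * Φ i.1 i.2)‖ := by
    have h5 : (Finset.univ : Finset (Fin m × ι)).Nonempty := by
      by_contra hcon
      rw [Finset.not_nonempty_iff_eq_empty] at hcon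
      rw [hcon, Finset.sum_empty] at h3
      exact one_ne_zero h3
    obtain ⟨i, -, hi⟩ := IsUltrametricDist.exists_norm_finsetSum_le_of_nonempty h5
      (fun i : Fin m × ι => eval₂ σ v (A k i * Φ i.1 i.2))
    refine ⟨i, ?_⟩
    rw [← h3, norm_one] at hi
    exact hi
  obtain ⟨⟨i, j⟩, hij⟩ := h4
  rw [eval₂_mul, norm_mul] at hij
  have h5 : ‖eval₂ σ v (Φ i j)‖ = 1 := by
    refine le_antisymm (norm_eval₂_le (hi1 i j) hv1) ?_
    have h6 := norm_eval₂_le (hi2 k (i, j)) hv1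
    have h7 : ‖eval₂ σ v (A k (i, j))‖ * ‖eval₂ σ v (Φ i j)‖ ≤ 1 * ‖eval₂ σ v (Φ i j)‖ :=
      mul_le_mul_of_nonneg_right h6 (norm_nonneg _)
    linarith
  have h6 : ∀ j, eval₂ σ v (Φ i j) = ((u k)⁻¹) ^ d i * σ (eval (rep p) (Φ i j)) := by
    intro j
    rw [← eval_map, hv, eval_smul' ((h1 i j).map σ)]
    congr 1
    exact eval_map_vec (σ := σ) (rep p) (Φ i j)
  refine ⟨i, ?_⟩
  have h7 : (fun j => σ (rep p j)) = u := rfl
  rw [h7]
  have h8 : ∀ j, ‖σ (eval (rep p) (Φ i j))‖ = ‖u‖ ^ d i * ‖eval₂ σ v (Φ i j)‖ := by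
    intro j
    rw [h6, norm_mul, norm_pow, norm_inv, hk, ← mul_assoc, ← mul_pow, mul_inv_cancel₀ hu'.ne',
      one_pow, one_mul]
  refine le_antisymm ?_ ?_
  · rw [pi_norm_le_iff_of_nonneg (by positivity)]
    intro j'
    rw [h8]
    exact mul_le_of_le_one_right (by positivity) (norm_eval₂_le (hi1 i j') hv1)
  · refine le_trans (le_of_eq ?_) (norm_le_pi_norm (fun j => σ (eval (rep p) (Φ i j))) j)
    rw [h8, h5, mul_one]

/-- A group generated by automorphisms with good reduction is equicontinuous. -/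
theorem equiCont_of_generators (hne : ∀ p : M, rep p ≠ 0) {R : Set Γ}
    (hR : Subgroup.closure R = ⊤)
    (hg : ∀ γ ∈ R, HasGoodReduction σ rep (fun p => γ • p) ∧
      HasGoodReduction σ rep (fun p => γ⁻¹ • p)) : EquiCont (vec σ rep) Γ := by
  have key : ∀ γ : Γ, (∀ (p q : M), dd (vec σ rep p) (vec σ rep q) < 1 →
      dd (vec σ rep (γ • p)) (vec σ rep (γ • q)) ≤ dd (vec σ rep p) (vec σ rep q)) ∧
      ∀ (p q : M), dd (vec σ rep p) (vec σ rep q) < 1 →
      dd (vec σ rep (γ⁻¹ • p)) (vec σ rep (γ⁻¹ • q)) ≤ dd (vec σ rep p) (vec σ rep q) := by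
    intro γ
    have hγ : γ ∈ Subgroup.closure R := by
      rw [hR]
      exact Subgroup.mem_top γ
    induction hγ using Subgroup.closure_induction with
    | mem γ hγ => exact ⟨dd_le_of_good hne (hg γ hγ).1, dd_le_of_good hne (hg γ hγ).2⟩
    | one => simp
    | mul γ γ' _ _ h4 h5 =>
      refine ⟨fun p q hpq => ?_, fun p q hpq => ?_⟩
      · rw [mul_smul, mul_smul]
        have h6 := h5.1 p q hpq
        exact (h4.1 _ _ (h6.trans_lt hpq)).trans h6
      · rw [mul_inv_rev, mul_smul, mul_smul]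
        have h6 := h4.2 p q hpq
        exact (h5.2 _ _ (h6.trans_lt hpq)).trans h6
    | inv γ _ h4 =>
      rw [inv_inv]
      exact ⟨h4.2, h4.1⟩
  intro ε hε
  refine ⟨min ε 1, by positivity, fun γ p q hpq => ?_⟩
  exact ((key γ).1 p q (hpq.trans_le (min_le_right _ _))).trans_lt
    (hpq.trans_le (min_le_left _ _))

end good

section places

variable {K : Type} [Field K] {ι : Type} [Fintype ι] {M : Type} (rep : M → ι → K)

/-- a map on the rational points which is given by a morphism of the projective set defined by `S` -/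
def IsMorS (S : Set (MvPolynomial ι K)) (g : M → M) : Prop :=
  ∃ (m : ℕ) (d : Fin m → ℕ) (Φ : Fin m → ι → MvPolynomial ι K),
    (∀ i j, (Φ i j).IsHomogeneous (d i)) ∧
    (∀ v : ι → AlgebraicClosure K, v ≠ 0 → (∀ s ∈ S, aeval v s = 0) →
      ∃ i j, aeval v (Φ i j) ≠ 0) ∧
    ∀ p i, ∃ c : K, (fun j => eval (rep p) (Φ i j)) = c • rep (g p)

variable {rep} {S : Set (MvPolynomial ι K)}

omit [Fintype ι] in
theorem isMor_of_isMorS (hne : ∀ p : M, rep p ≠ 0) (hmem : ∀ p : M, ∀ s ∈ S, eval (rep p) s = 0)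
    {g : M → M} (hg : IsMorS rep S g) : IsMor rep g := by
  obtain ⟨m, d, Φ, h1, h2, h3⟩ := hg
  refine ⟨m, d, Φ, h1, fun p => ⟨?_, h3 p⟩⟩
  have h4 : ∀ f : MvPolynomial ι K, aeval (fun i => algebraMap K (AlgebraicClosure K) (rep p i)) f =
      algebraMap K (AlgebraicClosure K) (eval (rep p) f) := by
    intro f
    change aeval (algebraMap K (AlgebraicClosure K) ∘ rep p) f = _
    rw [aeval_algebraMap_apply, aeval_eq_eval]
  obtain ⟨i, j, hij⟩ := h2 (fun i => algebraMap K (AlgebraicClosure K) (rep p i)) (by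
    intro h
    apply hne p
    funext i
    have := congrFun h i
    exact (map_eq_zero _).1 this) (by
    intro s hs
    rw [h4, hmem p s hs, map_zero])
  refine ⟨i, fun h => hij ?_⟩
  rw [h4]
  have := congrFun h j
  rw [this]
  exact map_zero _

/-- A morphism has good reduction at almost all places. -/
theorem good_almost_all (hne : ∀ p : M, rep p ≠ 0) (hmem : ∀ p : M, ∀ s ∈ S, eval (rep p) s = 0)
    (hS : ∀ s ∈ S, ∃ d : ℕ, s.IsHomogeneous d) {g : M → M} (hg : IsMorS rep S g) :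
    ∃ F : Finset K, ∀ (L : Type) [NontriviallyNormedField L] [IsUltrametricDist L] (σ : K →+* L),
      (∀ a ∈ F, ‖σ a‖ ≤ 1) → HasGoodReduction σ rep g := by
  classical
  obtain ⟨m, d, Φ, h1, h2, h3⟩ := hg
  have h4 : ∀ k : ι, ∃ (N : ℕ) (A : Fin m × ι → MvPolynomial ι K),
      X k ^ N - ∑ i, A i * Φ i.1 i.2 ∈ Ideal.span S := by
    intro k
    refine exists_pow_eq S (fun i : Fin m × ι => Φ i.1 i.2) (X k) fun v hv hvΦ => ?_
    rw [aeval_X]
    by_contra hk
    obtain ⟨i, j, hij⟩ := h2 v (fun h => hk (by rw [h]; rfl)) hv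
    exact hij (hvΦ (i, j))
  choose N A hA using h4
  refine ⟨(Finset.univ.biUnion fun i : Fin m × ι =>
      (Φ i.1 i.2).support.image fun e => coeff e (Φ i.1 i.2)) ∪
    (Finset.univ.biUnion fun q : ι × (Fin m × ι) =>
      (A q.1 q.2).support.image fun e => coeff e (A q.1 q.2)), ?_⟩
  intro L _ _ σ hσ
  refine hasGoodReduction_of_integral hne hmem hS h1 h3 hA ?_ ?_
  · intro i j e
    by_cases he : coeff e (Φ i j) = 0
    · rw [he, map_zero, norm_zero]
      exact zero_le_one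
    · refine hσ _ (Finset.mem_union_left _ (Finset.mem_biUnion.2 ⟨(i, j), Finset.mem_univ _,
        Finset.mem_image.2 ⟨e, mem_support_iff.2 he, rfl⟩⟩))
  · intro k i e
    by_cases he : coeff e (A k i) = 0
    · rw [he, map_zero, norm_zero]
      exact zero_le_one
    · refine hσ _ (Finset.mem_union_right _ (Finset.mem_biUnion.2 ⟨(k, i), Finset.mem_univ _,
        Finset.mem_image.2 ⟨e, mem_support_iff.2 he, rfl⟩⟩))

/-- Finitely generated groups are equicontinuous at almost all places. -/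
theorem equiCont_almost_all {Γ : Type} [Group Γ] [MulAction Γ M] (hfg : Group.FG Γ)
    (hne : ∀ p : M, rep p ≠ 0) (hmem : ∀ p : M, ∀ s ∈ S, eval (rep p) s = 0)
    (hS : ∀ s ∈ S, ∃ d : ℕ, s.IsHomogeneous d)
    (hmor : ∀ γ : Γ, IsMorS rep S (fun p => γ • p)) :
    ∃ F : Finset K, ∀ (L : Type) [NontriviallyNormedField L] [IsUltrametricDist L] (σ : K →+* L),
      (∀ a ∈ F, ‖σ a‖ ≤ 1) → EquiCont (vec σ rep) Γ := by
  classical
  obtain ⟨R, hR⟩ := Group.fg_def.1 hfg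
  choose F hF using fun γ : Γ => good_almost_all hne hmem hS (hmor γ)
  refine ⟨R.biUnion fun γ => F γ ∪ F γ⁻¹, ?_⟩
  intro L _ _ σ hσ
  refine equiCont_of_generators hne (R := (R : Set Γ)) hR fun γ hγ => ⟨?_, ?_⟩
  · exact hF γ L σ fun a ha => hσ a (Finset.mem_biUnion.2 ⟨γ, hγ, Finset.mem_union_left _ ha⟩)
  · exact hF γ⁻¹ L σ fun a ha => hσ a (Finset.mem_biUnion.2 ⟨γ, hγ, Finset.mem_union_right _ ha⟩)

/-- a proper family of morphisms -/
def InFamily (S : Set (MvPolynomial ι K)) (rep : M → ι → K) (Γ : Type)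
    [Group Γ] [MulAction Γ M] : Prop :=
  ∃ (N : ℕ) (T : Set (MvPolynomial (Fin N) K)) (m : ℕ) (a b : Fin m → ℕ)
    (Φ : Fin m → ι → MvPolynomial (Fin N ⊕ ι) K),
    (∀ s ∈ T, ∃ d : ℕ, s.IsHomogeneous d) ∧ (∀ i j, IsBihom (Φ i j) (a i) (b i)) ∧
    (∀ u : Fin N → AlgebraicClosure K, u ≠ 0 → (∀ s ∈ T, aeval u s = 0) →
      ∀ v : ι → AlgebraicClosure K, v ≠ 0 → (∀ s ∈ S, aeval v s = 0) →
      ∃ i j, aeval (Sum.elim u v) (Φ i j) ≠ 0) ∧
    ∀ γ : Γ, ∃ t : Fin N → K, t ≠ 0 ∧ (∀ s ∈ T, eval t s = 0) ∧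
      ∀ p i, ∃ c : K, (fun j => eval (Sum.elim t (rep p)) (Φ i j)) = c • rep (γ • p)

/-- no common zeros in any extension -/
theorem no_zeros_ext {κ : Type} [Fintype κ] {T : Set (MvPolynomial κ K)} {m : ℕ}
    {Φ : Fin m → ι → MvPolynomial (κ ⊕ ι) K}
    (h : ∀ u : κ → AlgebraicClosure K, u ≠ 0 → (∀ s ∈ T, aeval u s = 0) →
      ∀ v : ι → AlgebraicClosure K, v ≠ 0 → (∀ s ∈ S, aeval v s = 0) →
      ∃ i j, aeval (Sum.elim u v) (Φ i j) ≠ 0)
    {L : Type} [Field L] (σ : K →+* L) (u : κ → L) (hu : u ≠ 0) (hT : ∀ s ∈ T, eval₂ σ u s = 0)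
    (v : ι → L) (hv : v ≠ 0) (hSv : ∀ s ∈ S, eval₂ σ v s = 0) :
    ∃ i j, eval₂ σ (Sum.elim u v) (Φ i j) ≠ 0 := by
  obtain ⟨k, hk⟩ := Function.ne_iff.1 hu
  obtain ⟨l, hl⟩ := Function.ne_iff.1 hv
  obtain ⟨N, A, hA⟩ := exists_pow_eq
    ((rename Sum.inl '' T : Set (MvPolynomial (κ ⊕ ι) K)) ∪ rename Sum.inr '' S)
    (fun i : Fin m × ι => Φ i.1 i.2) (X (Sum.inl k) * X (Sum.inr l)) (by
      intro w hw hwΦ
      rw [map_mul, aeval_X, aeval_X]
      by_contra hkl
      have hw1 : w = Sum.elim (w ∘ Sum.inl) (w ∘ Sum.inr) := (Sum.elim_comp_inl_inr w).symm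
      obtain ⟨i, j, hij⟩ := h (w ∘ Sum.inl) (fun h0 => hkl (by
          have := congrFun h0 k
          simp only [Function.comp_apply, Pi.zero_apply] at this
          rw [this, zero_mul])) (fun s hs => by
          have := hw _ (Or.inl ⟨s, hs, rfl⟩)
          rwa [aeval_rename] at this)
        (w ∘ Sum.inr) (fun h0 => hkl (by
          have := congrFun h0 l
          simp only [Function.comp_apply, Pi.zero_apply] at this
          rw [this, mul_zero])) (fun s hs => by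
          have := hw _ (Or.inr ⟨s, hs, rfl⟩)
          rwa [aeval_rename] at this)
      rw [← hw1] at hij
      exact hij (hwΦ (i, j)))
  by_contra hcon
  push Not at hcon
  have h1 := eval₂_eq_zero_of_mem_span (R := L) σ (v := Sum.elim u v) (by
    rintro _ (⟨s, hs, rfl⟩ | ⟨s, hs, rfl⟩)
    · rw [eval₂_rename]
      exact hT s hs
    · rw [eval₂_rename]
      exact hSv s hs) hA
  rw [eval₂_sub, eval₂_pow, eval₂_mul, eval₂_X, eval₂_X, eval₂_sum, Finset.sum_eq_zero, sub_zero]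
    at h1
  · exact pow_ne_zero N (mul_ne_zero hk hl) h1
  · rintro ⟨i, j⟩ -
    rw [eval₂_mul, hcon i j, mul_zero]

/-- Groups in a proper family are equicontinuous at all places. -/
theorem equiCont_of_family {Γ : Type} [Group Γ] [MulAction Γ M]
    {L : Type} [NontriviallyNormedField L] [ProperSpace L] (σ : K →+* L)
    (hne : ∀ p : M, rep p ≠ 0) (hmem : ∀ p : M, ∀ s ∈ S, eval (rep p) s = 0)
    (hS : ∀ s ∈ S, ∃ d : ℕ, s.IsHomogeneous d)
    (hfam : InFamily S rep Γ) : EquiCont (vec σ rep) Γ := by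
  obtain ⟨N, T, m, a, b, Φ, h1, h2, h3, h4⟩ := hfam
  intro ε hε
  obtain ⟨δ, hδ, hδ1⟩ := family_uniform (L := L) (ST := MvPolynomial.map σ '' T)
    (S := MvPolynomial.map σ '' S) (Φ := fun i j => MvPolynomial.map σ (Φ i j)) (a := a) (b := b)
    (by
      rintro _ ⟨s, hs, rfl⟩
      obtain ⟨d, hd⟩ := h1 s hs
      exact ⟨d, hd.map σ⟩)
    (by
      rintro _ ⟨s, hs, rfl⟩
      obtain ⟨d, hd⟩ := hS s hs
      exact ⟨d, hd.map σ⟩)
    (fun i j => isBihom_map σ (h2 i j))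
    (by
      intro u hu hT v hv hSv
      obtain ⟨i, j, hij⟩ := no_zeros_ext h3 σ u hu (fun s hs => by
        rw [← eval_map]
        exact hT _ ⟨s, hs, rfl⟩) v hv (fun s hs => by
        rw [← eval_map]
        exact hSv _ ⟨s, hs, rfl⟩)
      refine ⟨i, fun h0 => hij ?_⟩
      rw [← eval_map]
      exact congrFun h0 j) hε
  refine ⟨δ, hδ, fun γ p q hpq => ?_⟩
  obtain ⟨t, ht0, htT, ht⟩ := h4 γ
  have hmem' : ∀ (r : M), ∀ s ∈ MvPolynomial.map σ '' S, eval (vec σ rep r) s = 0 := by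
    rintro r _ ⟨s, hs, rfl⟩
    have h5 := eval_map_vec (σ := σ) (rep r) s
    change eval (fun i => σ (rep r i)) (map σ s) = 0
    rw [h5, hmem r s hs, map_zero]
  obtain ⟨i, hi1, hi2, hi3⟩ := hδ1 (fun k => σ (t k)) (by
      intro h0
      apply ht0
      funext k
      have := congrFun h0 k
      exact (map_eq_zero σ).1 this) (by
      rintro _ ⟨s, hs, rfl⟩
      rw [eval_map_vec (σ := σ) t s, htT s hs, map_zero]) (vec σ rep p) (vec_ne_zero (hne p))
    (hmem' p) (vec σ rep q) (vec_ne_zero (hne q)) (hmem' q) hpq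
  have h5 : ∀ r : M, ∃ c : L, (fun j => eval (Sum.elim (fun k => σ (t k)) (vec σ rep r))
      (map σ (Φ i j))) = c • vec σ rep (γ • r) := by
    intro r
    obtain ⟨c, hc⟩ := ht r i
    refine ⟨σ c, ?_⟩
    funext j
    have h6 : Sum.elim (fun k => σ (t k)) (vec σ rep r) =
        fun z => σ (Sum.elim t (rep r) z) := by
      funext z
      rcases z with z | z
      · rfl
      · rfl
    rw [h6, eval_map_vec (σ := σ) (Sum.elim t (rep r)) (Φ i j)]
    have h7 := congrFun hc j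
    rw [h7]
    simp [vec]
  obtain ⟨c, hc⟩ := h5 p
  obtain ⟨c', hc'⟩ := h5 q
  rw [hc] at hi1 hi3
  rw [hc'] at hi2 hi3
  have hc0 : c ≠ 0 := by
    rintro rfl
    exact hi1 (zero_smul _ _)
  have hc'0 : c' ≠ 0 := by
    rintro rfl
    exact hi2 (zero_smul _ _)
  rwa [dd_smul_left hc0, dd_smul_right hc'0] at hi3

end places

end Pool.Agent.L0h15.MA
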